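import Pool.Agent.H138.Cnt.Sub

/-!
# The Clifford symmetries of a Weyl–Heisenberg maximal equiangular tight frame in prime dimension

Let `p ≥ 5` be a prime and let the Weyl–Heisenberg orbit of `ψ` be a maximal equiangular tight frame
of `ℂ^p`.  The group `G` of the permutations of its `p²` lines which are induced by unitary
transformations normalising the Weyl–Heisenberg group is either the group `F_p²` of translations or
a Frobenius group `F_p² ⋊ C` with a cyclic complement `C` of odd order dividing `p - 1` or `p + 1`;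
a symmetry which is not a translation fixes exactly one of the lines.
-/

set_option autoImplicit false

namespace Pool.Agent.H138.Cnt.CliffSym

open Finset ComplexConjugate

variable {p : ℕ} [Fact p.Prime]

/-- The displacement operator `D_(a,b)`: `(D_(a,b) ψ)(k) = exp(2 π i b k / p) ψ(k + a)`. -/
noncomputable def disp (g : ZMod p × ZMod p) (ψ : EuclideanSpace ℂ (ZMod p)) :
    EuclideanSpace ℂ (ZMod p) :=
  WithLp.toLp 2 (fun k => ZMod.stdAddChar (g.2 * k) * ψ (k + g.1))

/-- The orbit `(D_g ψ)_g` is a maximal equiangular tight frame: `p ^ 2` unit vectors with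
`|⟨D_g ψ, D_h ψ⟩| = 1 / √(p + 1)` for `g ≠ h`. -/
def OrbitIsMaxETF (ψ : EuclideanSpace ℂ (ZMod p)) : Prop :=
  (∀ g, ‖disp g ψ‖ = 1) ∧
    ∀ g h : ZMod p × ZMod p, g ≠ h → ‖inner ℂ (disp g ψ) (disp h ψ)‖ = 1 / √((p : ℝ) + 1)

/-- The permutation `π` of the lines `ℂ D_g ψ` (indexed by `g`) is induced by a unitary
transformation `U` which normalises the Weyl–Heisenberg group: for every `g` there is an `h` with
`U D_g U⁻¹ ∈ ℂ D_h`, and `U` maps the line of `D_g ψ` to the line of `D_(π g) ψ`. -/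
def IsCliffordSymmetry (ψ : EuclideanSpace ℂ (ZMod p))
    (π : Equiv.Perm (ZMod p × ZMod p)) : Prop :=
  ∃ U : EuclideanSpace ℂ (ZMod p) ≃ₗᵢ[ℂ] EuclideanSpace ℂ (ZMod p),
    (∀ g, ∃ h : ZMod p × ZMod p, ∃ c : ℂ, ∀ x, U (disp g x) = c • disp h (U x)) ∧
    ∀ g, ∃ c : ℂ, U (disp g ψ) = c • disp (π g) ψ

open Pool.Agent.H138.Cnt

theorem inner_disp (g : ZMod p × ZMod p) (ψ : EuclideanSpace ℂ (ZMod p)) :
    inner ℂ ψ (disp g ψ) = e (-(2⁻¹ * g.1 * g.2)) * F ψ g := by
  rw [F, ← mul_assoc, ← e_add, neg_add_cancel, e_zero, one_mul, PiLp.inner_apply]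
  apply Finset.sum_congr rfl
  intro k _
  simp only [disp, RCLike.inner_apply]
  rw [e]
  ring

theorem disp_zero (ψ : EuclideanSpace ℂ (ZMod p)) : disp (0 : ZMod p × ZMod p) ψ = ψ := by
  ext k
  simp [disp]

theorem disp_disp (g h : ZMod p × ZMod p) (ψ : EuclideanSpace ℂ (ZMod p)) :
    disp g (disp h ψ) = e (h.2 * g.1) • disp (g + h) ψ := by
  ext k
  simp only [disp, PiLp.smul_apply, smul_eq_mul, Prod.fst_add, Prod.snd_add]
  have e1 : k + g.1 + h.1 = k + (g.1 + h.1) := by ring
  have e2 : (ZMod.stdAddChar (g.2 * k) : ℂ) * ZMod.stdAddChar (h.2 * (k + g.1))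
      = e (h.2 * g.1) * ZMod.stdAddChar ((g.2 + h.2) * k) := by
    rw [e, ← AddChar.map_add_eq_mul, ← AddChar.map_add_eq_mul]; congr 1; ring
  rw [e1, ← mul_assoc, e2, mul_assoc]

theorem disp_smul (g : ZMod p × ZMod p) (c : ℂ) (ψ : EuclideanSpace ℂ (ZMod p)) :
    disp g (c • ψ) = c • disp g ψ := by
  ext k
  simp only [disp, PiLp.smul_apply, smul_eq_mul]
  ring

theorem inner_disp_disp (g h : ZMod p × ZMod p) (ψ : EuclideanSpace ℂ (ZMod p)) :
    inner ℂ (disp g ψ) (disp h ψ) = e (-(h.2 - g.2) * g.1) * inner ℂ ψ (disp (h - g) ψ) := by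
  rw [PiLp.inner_apply, PiLp.inner_apply, Finset.mul_sum,
    ← Equiv.sum_comp (Equiv.addRight (-g.1))]
  apply Finset.sum_congr rfl
  intro k _
  simp only [disp, RCLike.inner_apply, Equiv.coe_addRight, map_mul]
  have e1 : k + -g.1 + h.1 = k + (h - g).1 := by rw [Prod.fst_sub]; ring
  have e2 : k + -g.1 + g.1 = k := by ring
  have e3 : (ZMod.stdAddChar (h.2 * (k + -g.1)) : ℂ) * conj (ZMod.stdAddChar (g.2 * (k + -g.1)))
      = e (-(h.2 - g.2) * g.1) * ZMod.stdAddChar ((h - g).2 * k) := by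
    rw [← AddChar.map_neg_eq_conj, e, ← AddChar.map_add_eq_mul, ← AddChar.map_add_eq_mul,
      Prod.snd_sub]
    congr 1; ring
  rw [e1, e2]
  linear_combination (ψ (k + (h - g).1) * conj (ψ k)) * e3

theorem norm_inner (g : ZMod p × ZMod p) (ψ : EuclideanSpace ℂ (ZMod p)) :
    ‖inner ℂ ψ (disp g ψ)‖ = ‖F ψ g‖ := by
  rw [inner_disp, norm_mul, e_norm, one_mul]

theorem F_zero_eq (ψ : EuclideanSpace ℂ (ZMod p)) : F ψ 0 = ((‖ψ‖ ^ 2 : ℝ) : ℂ) := by
  have h1 := inner_disp 0 ψ
  rw [disp_zero, inner_self_eq_norm_sq_to_K] at h1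
  have h2 : e (-(2⁻¹ * (0 : ZMod p × ZMod p).1 * (0 : ZMod p × ZMod p).2)) = 1 := by
    simp [e_zero]
  rw [h2, one_mul] at h1
  rw [← h1]
  push_cast
  rfl

theorem fid (ψ : EuclideanSpace ℂ (ZMod p)) (h : OrbitIsMaxETF ψ) : Fid (ψ : ZMod p → ℂ) := by
  refine ⟨?_, fun v hv => ?_⟩
  · rw [F_zero_eq]
    have h1 := h.1 0
    rw [disp_zero] at h1
    rw [h1]
    simp
  · have h1 := h.2 0 v (Ne.symm hv)
    rw [disp_zero, norm_inner] at h1
    exact h1

/-- different displacements give different lines -/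
theorem line_inj (hp5 : 5 ≤ p) {ψ : EuclideanSpace ℂ (ZMod p)} (h : OrbitIsMaxETF ψ)
    {g k : ZMod p × ZMod p} {c : ℂ} (hgk : disp g ψ = c • disp k ψ) : g = k := by
  by_contra hne
  have h1 := h.2 g k hne
  have h2 : ‖c‖ = 1 := by
    have := h.1 g
    rw [hgk, norm_smul, h.1, mul_one] at this
    exact this
  rw [hgk, inner_smul_left, norm_mul, inner_self_eq_norm_sq_to_K, h.1] at h1
  simp only [RCLike.norm_conj, h2, one_mul, RCLike.ofReal_one, one_pow, norm_one] at h1
  have hp' : (5 : ℝ) ≤ p := by exact_mod_cast hp5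
  have h3 : 1 < √((p : ℝ) + 1) := by
    rw [Real.lt_sqrt zero_le_one]
    linarith
  have h4 : √((p : ℝ) + 1) = 1 := by
    rw [eq_div_iff (by positivity), one_mul] at h1
    exact h1
  linarith

/-- the linear part of a symmetry -/
theorem linear_part (hp5 : 5 ≤ p) {ψ : EuclideanSpace ℂ (ZMod p)} (h : OrbitIsMaxETF ψ)
    {π : Equiv.Perm (ZMod p × ZMod p)} (hπ : IsCliffordSymmetry ψ π) :
    ∃ M : SL p, M ∈ stab (T (F ψ)) ∧ ∀ g, π g = act M g + π 0 := by
  have hp2 : p ≠ 2 := by omega
  have h2 := two_ne hp2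
  obtain ⟨U, hU, hπU⟩ := hπ
  choose m c hmc using hU
  choose l hl using hπU
  have hl0 : ∀ g, ‖l g‖ = 1 := by
    intro g
    have h1 : ‖U (disp g ψ)‖ = 1 := by rw [LinearIsometryEquiv.norm_map, h.1]
    rw [hl, norm_smul, h.1, mul_one] at h1
    exact h1
  have hl0' : ∀ g, l g ≠ 0 := by
    intro g h0
    have := hl0 g
    rw [h0, norm_zero] at this
    exact zero_ne_one this
  have hUψ : U ψ = l 0 • disp (π 0) ψ := by
    have := hl 0
    rwa [disp_zero] at this
  -- the permutation is affine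
  have haff : ∀ g, π g = m g + π 0 := by
    intro g
    have h1 := hmc g ψ
    rw [hl, hUψ, disp_smul, disp_disp, smul_smul, smul_smul] at h1
    apply line_inj hp5 h (c := (l g)⁻¹ * (c g * l 0 * e ((π 0).2 * (m g).1)))
    rw [mul_smul, ← h1, smul_smul, inv_mul_cancel₀ (hl0' g), one_smul]
  have hadd : ∀ g k, m (g + k) = m g + m k := by
    intro g k
    have h1 : π (g + k) = m g + (m k + π 0) := by
      have h3 : U (disp g (disp k ψ)) = (c g * (l k * e ((π k).2 * (m g).1))) •
          disp (m g + π k) ψ := by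
        rw [hmc, hl, disp_smul, disp_disp, smul_smul, smul_smul]
        congr 1
        ring
      rw [disp_disp, map_smul, hl, smul_smul] at h3
      have h4 : e (k.2 * g.1) * l (g + k) ≠ 0 := mul_ne_zero (e_ne _) (hl0' _)
      rw [← haff k]
      apply line_inj hp5 h (c := (e (k.2 * g.1) * l (g + k))⁻¹ *
        (c g * (l k * e ((π k).2 * (m g).1))))
      rw [mul_smul, ← h3, smul_smul, inv_mul_cancel₀ h4, one_smul]
    rw [haff] at h1
    have h5 : m (g + k) + π 0 = (m g + m k) + π 0 := by rw [h1, add_assoc]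
    exact add_right_cancel h5
  -- it is symplectic
  have hsymp : ∀ g k : ZMod p × ZMod p,
      (m k).2 * (m g).1 - (m g).2 * (m k).1 = k.2 * g.1 - g.2 * k.1 := by
    intro g k
    have h1 : e (k.2 * g.1 - g.2 * k.1) • disp k (disp g ψ) = disp g (disp k ψ) := by
      rw [disp_disp, disp_disp, smul_smul, ← e_add, add_comm k g]
      congr 2
      ring
    have h3 := congrArg U h1
    rw [map_smul, hmc, hmc, hmc, hmc, disp_smul, disp_smul, disp_disp, disp_disp, smul_smul,
      smul_smul, smul_smul, smul_smul, smul_smul, add_comm (m k) (m g)] at h3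
    have hcne : ∀ g, c g ≠ 0 := by
      intro g h0
      have h4 := hmc g ψ
      rw [h0, zero_smul] at h4
      have h5 : ‖U (disp g ψ)‖ = 1 := by rw [LinearIsometryEquiv.norm_map, h.1]
      rw [h4, norm_zero] at h5
      exact zero_ne_one h5
    have hne : disp (m g + m k) (U ψ) ≠ 0 := by
      intro h0
      have h4 := hmc (g + k) ψ
      rw [hadd, h0, smul_zero] at h4
      have h5 : ‖U (disp (g + k) ψ)‖ = 1 := by rw [LinearIsometryEquiv.norm_map, h.1]
      rw [h4, norm_zero] at h5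
      exact zero_ne_one h5
    have h4 := smul_left_injective ℂ hne h3
    have h5 : e (k.2 * g.1 - g.2 * k.1) * e ((m g).2 * (m k).1) = e ((m k).2 * (m g).1) := by
      have h6 : c g * c k ≠ 0 := mul_ne_zero (hcne g) (hcne k)
      apply mul_left_cancel₀ h6
      linear_combination h4
    rw [← e_add] at h5
    have h6 := e_inj h5
    linear_combination -h6
  have hmz : m 0 = 0 := by
    have := hadd 0 0
    rw [add_zero] at this
    exact (left_eq_add.mp this)
  have hsmul : ∀ (n : ℕ) (g : ZMod p × ZMod p), m (n • g) = n • m g := by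
    intro n g
    induction n with
    | zero => rw [zero_smul, zero_smul, hmz]
    | succ n ih => rw [succ_nsmul, succ_nsmul, hadd, ih]
  have hlin : ∀ g : ZMod p × ZMod p, m g = ((m (1, 0)).1 * g.1 + (m (0, 1)).1 * g.2,
      (m (1, 0)).2 * g.1 + (m (0, 1)).2 * g.2) := by
    intro g
    have h1 : g = g.1.val • ((1, 0) : ZMod p × ZMod p) + g.2.val • ((0, 1) : ZMod p × ZMod p) := by
      ext <;> simp
    conv_lhs => rw [h1, hadd, hsmul, hsmul]
    ext
    · rw [Prod.fst_add, Prod.smul_fst, Prod.smul_fst, nsmul_eq_mul, nsmul_eq_mul,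
        ZMod.natCast_zmod_val, ZMod.natCast_zmod_val]
      ring
    · rw [Prod.snd_add, Prod.smul_snd, Prod.smul_snd, nsmul_eq_mul, nsmul_eq_mul,
        ZMod.natCast_zmod_val, ZMod.natCast_zmod_val]
      ring
  let M : SL p := ⟨!![(m (1, 0)).1, (m (0, 1)).1; (m (1, 0)).2, (m (0, 1)).2], by
    rw [Matrix.det_fin_two_of]
    have := hsymp (1, 0) (0, 1)
    simp only [mul_one, mul_zero, sub_zero] at this
    linear_combination this⟩
  have hM : ∀ g, act M g = m g := by
    intro g
    rw [hlin g]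
    rfl
  refine ⟨M, ?_, fun g => by rw [hM, haff]⟩
  -- triple products
  have hin : ∀ g k, inner ℂ (disp (π g) ψ) (disp (π k) ψ)
      = (l g * conj (l k)) * inner ℂ (disp g ψ) (disp k ψ) := by
    intro g k
    have h1 : inner ℂ (U (disp g ψ)) (U (disp k ψ)) = inner ℂ (disp g ψ) (disp k ψ) :=
      LinearIsometryEquiv.inner_map_map U _ _
    rw [hl, hl, inner_smul_left, inner_smul_right] at h1
    have h3 : ∀ g, conj (l g) * l g = 1 := by
      intro g
      rw [mul_comm, Complex.mul_conj, Complex.normSq_eq_norm_sq, hl0]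
      norm_num
    rw [← h1]
    linear_combination (-inner ℂ (disp (π g) ψ) (disp (π k) ψ)) * (h3 k) -
      (inner ℂ (disp (π g) ψ) (disp (π k) ψ) * (l k * conj (l k))) * (h3 g)
  intro u v
  -- the lines `0`, `u`, `u + v`
  have htri : ∀ a u v : ZMod p × ZMod p,
      inner ℂ (disp a ψ) (disp (a + u) ψ) * inner ℂ (disp (a + u) ψ) (disp (a + u + v) ψ) *
        inner ℂ (disp (a + u + v) ψ) (disp a ψ)
      = e (2⁻¹ * (u.2 * v.1 - u.1 * v.2)) * T (F ψ) u v := by
    intro a u v
    have s1 : a + u - a = u := by abel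
    have s2 : a + u + v - (a + u) = v := by abel
    have s3 : a - (a + u + v) = -u - v := by abel
    rw [inner_disp_disp, inner_disp_disp, inner_disp_disp, s1, s2, s3, inner_disp, inner_disp,
      inner_disp, T]
    have h1 : e (-((a + u).2 - a.2) * a.1) * e (-(2⁻¹ * u.1 * u.2)) *
        (e (-((a + u + v).2 - (a + u).2) * (a + u).1) * e (-(2⁻¹ * v.1 * v.2))) *
        (e (-(a.2 - (a + u + v).2) * (a + u + v).1) *
          e (-(2⁻¹ * (-u - v).1 * (-u - v).2)))
        = e (2⁻¹ * (u.2 * v.1 - u.1 * v.2)) := by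
      simp only [← e_add]
      congr 1
      simp only [Prod.fst_add, Prod.snd_add, Prod.fst_sub, Prod.snd_sub, Prod.fst_neg,
        Prod.snd_neg]
      field_simp
      ring
    linear_combination (F ψ u * F ψ v * F ψ (-u - v)) * h1
  have h3 := htri 0 u v
  have h4 := htri (π 0) (m u) (m v)
  have p1 : π 0 + m u = π u := by rw [haff u, add_comm]
  have p2 : π 0 + m u + m v = π (u + v) := by rw [haff (u + v), hadd]; abel
  rw [p2, p1, hin, hin, hin] at h4
  rw [zero_add] at h3
  have h5 : ∀ g, l g * conj (l g) = 1 := by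
    intro g
    rw [Complex.mul_conj, Complex.normSq_eq_norm_sq, hl0]
    norm_num
  have h6 : (m u).2 * (m v).1 - (m u).1 * (m v).2 = u.2 * v.1 - u.1 * v.2 := by
    linear_combination -(hsymp u v)
  rw [h6] at h4
  rw [hM, hM]
  apply mul_left_cancel₀ (e_ne (2⁻¹ * (u.2 * v.1 - u.1 * v.2)))
  rw [← h3, ← h4]
  have h7 : l 0 * conj (l u) * (l u * conj (l (u + v))) * (l (u + v) * conj (l 0)) = 1 := by
    linear_combination (l u * conj (l u)) * (l (u + v) * conj (l (u + v))) * h5 0 +
      (l (u + v) * conj (l (u + v))) * h5 u + h5 (u + v)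
  linear_combination (inner ℂ (disp 0 ψ) (disp u ψ) * inner ℂ (disp u ψ) (disp (u + v) ψ) *
    inner ℂ (disp (u + v) ψ) (disp 0 ψ)) * h7

theorem sym_one (ψ : EuclideanSpace ℂ (ZMod p)) : IsCliffordSymmetry ψ 1 :=
  ⟨LinearIsometryEquiv.refl ℂ _, fun g => ⟨g, 1, fun x => by simp⟩, fun g => ⟨1, by simp⟩⟩

theorem sym_mul {ψ : EuclideanSpace ℂ (ZMod p)} {π ρ : Equiv.Perm (ZMod p × ZMod p)}
    (h1 : IsCliffordSymmetry ψ π) (h2 : IsCliffordSymmetry ψ ρ) :
    IsCliffordSymmetry ψ (π * ρ) := by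
  obtain ⟨U, hU, hU'⟩ := h1
  obtain ⟨V, hV, hV'⟩ := h2
  refine ⟨V.trans U, fun g => ?_, fun g => ?_⟩
  · obtain ⟨h, c, hc⟩ := hV g
    obtain ⟨h', c', hc'⟩ := hU h
    refine ⟨h', c * c', fun x => ?_⟩
    rw [LinearIsometryEquiv.trans_apply, LinearIsometryEquiv.trans_apply, hc, map_smul, hc',
      smul_smul]
  · obtain ⟨c, hc⟩ := hV' g
    obtain ⟨c', hc'⟩ := hU' (ρ g)
    refine ⟨c * c', ?_⟩
    rw [LinearIsometryEquiv.trans_apply, hc, map_smul, hc', smul_smul]
    rfl

theorem norm_disp (g : ZMod p × ZMod p) (ψ : EuclideanSpace ℂ (ZMod p)) : ‖disp g ψ‖ = ‖ψ‖ := by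
  have h1 := congrArg norm (inner_disp_disp g g ψ)
  rw [norm_mul, e_norm, one_mul, sub_self g, disp_zero, inner_self_eq_norm_sq_to_K,
    inner_self_eq_norm_sq_to_K] at h1
  simp only [norm_pow, RCLike.norm_ofReal, abs_norm] at h1
  exact (pow_left_inj₀ (norm_nonneg _) (norm_nonneg _) two_ne_zero).mp h1

theorem disp_add (g : ZMod p × ZMod p) (x y : EuclideanSpace ℂ (ZMod p)) :
    disp g (x + y) = disp g x + disp g y := by
  ext k
  simp only [disp, PiLp.add_apply]
  ring

/-- the displacement operator as a unitary transformation -/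
noncomputable def dispU (k : ZMod p × ZMod p) :
    EuclideanSpace ℂ (ZMod p) ≃ₗᵢ[ℂ] EuclideanSpace ℂ (ZMod p) :=
  LinearIsometry.toLinearIsometryEquiv
    { toFun := disp k
      map_add' := disp_add k
      map_smul' := fun c x => disp_smul k c x
      norm_map' := norm_disp k } rfl

theorem dispU_apply (k : ZMod p × ZMod p) (x : EuclideanSpace ℂ (ZMod p)) :
    dispU k x = disp k x := rfl

theorem sym_add (ψ : EuclideanSpace ℂ (ZMod p)) (k : ZMod p × ZMod p) :
    IsCliffordSymmetry ψ (Equiv.addRight k) := by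
  refine ⟨dispU k, fun g => ⟨g, e (g.2 * k.1) * (e (k.2 * g.1))⁻¹, fun x => ?_⟩,
    fun g => ⟨e (g.2 * k.1), ?_⟩⟩
  · rw [dispU_apply, dispU_apply, disp_disp, disp_disp, smul_smul, mul_assoc,
      inv_mul_cancel₀ (e_ne _), mul_one, add_comm]
  · rw [dispU_apply, disp_disp, add_comm]
    rfl

/-- the group of the Clifford symmetries -/
def symGroup (ψ : EuclideanSpace ℂ (ZMod p)) : Subgroup (Equiv.Perm (ZMod p × ZMod p)) where
  carrier := {π | IsCliffordSymmetry ψ π}
  one_mem' := sym_one ψ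
  mul_mem' := sym_mul
  inv_mem' := by
    intro π hπ
    have hpow : ∀ n : ℕ, IsCliffordSymmetry ψ (π ^ n) := by
      intro n
      induction n with
      | zero => exact sym_one ψ
      | succ n ih => rw [pow_succ]; exact sym_mul ih hπ
    have h1 : π⁻¹ = π ^ (orderOf π - 1) := by
      symm
      apply eq_inv_of_mul_eq_one_left
      rw [← pow_succ, Nat.sub_add_cancel (orderOf_pos π), pow_orderOf_eq_one]
    show IsCliffordSymmetry ψ π⁻¹
    rw [h1]
    exact hpow _

/-- Let `p ≥ 5` be a prime and let the Weyl–Heisenberg orbit of `ψ` be a maximal equiangular tight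
frame.  The permutations of its lines `ℂ D_g ψ`, `g ∈ F_p²`, which are induced by unitary
transformations normalising the Weyl–Heisenberg group form a group `G` of affine maps which contains
all translations; the stabiliser `C` of a line is cyclic, its order is odd and divides `p - 1` or
`p + 1`, `|G| = p² |C|`, and every element of `G` which is not a translation fixes exactly one
line. -/
theorem main (p : ℕ) [Fact p.Prime] (hp5 : 5 ≤ p) (ψ : EuclideanSpace ℂ (ZMod p))
    (hψ : OrbitIsMaxETF ψ) : ∃ G : Subgroup (Equiv.Perm (ZMod p × ZMod p)),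
    (∀ π, π ∈ G ↔ IsCliffordSymmetry ψ π) ∧ (∀ k, Equiv.addRight k ∈ G) ∧
    (∀ π ∈ G, ∀ g h, π (g + h) + π 0 = π g + π h) ∧
    IsCyclic (MulAction.stabilizer G (0 : ZMod p × ZMod p)) ∧
    Odd (Nat.card (MulAction.stabilizer G (0 : ZMod p × ZMod p))) ∧
    (Nat.card (MulAction.stabilizer G (0 : ZMod p × ZMod p)) ∣ p - 1 ∨
      Nat.card (MulAction.stabilizer G (0 : ZMod p × ZMod p)) ∣ p + 1) ∧
    Nat.card G = p ^ 2 * Nat.card (MulAction.stabilizer G (0 : ZMod p × ZMod p)) ∧
    ∀ π ∈ G, (∃ k, ∀ g, π g = g + k) ∨ ∃! g, π g = g := by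
  have hp2 : p ≠ 2 := by omega
  have hX : T (F ψ) ∈ X p := ⟨ψ, fid ψ hψ, rfl⟩
  obtain ⟨hcyc, hodd, hdvd, hfix⟩ := stab_structure hp5 hp2 hX
  refine ⟨symGroup ψ, fun π => Iff.rfl, sym_add ψ, ?_, ?_⟩
  · intro π hπ g h
    obtain ⟨M, -, hM⟩ := linear_part hp5 hψ hπ
    rw [hM (g + h), hM g, hM h, act_add]
    abel
  have hex : ∀ π : MulAction.stabilizer (symGroup ψ) (0 : ZMod p × ZMod p),
      ∃ M : stab (T (F ψ)), ∀ g, ((π : symGroup ψ) : Equiv.Perm (ZMod p × ZMod p)) g
        = act (M : SL p) g := by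
    intro π
    obtain ⟨M, hM1, hM2⟩ := linear_part hp5 hψ (π : symGroup ψ).2
    refine ⟨⟨M, hM1⟩, fun g => ?_⟩
    have h0 : ((π : symGroup ψ) : Equiv.Perm (ZMod p × ZMod p)) 0 = 0 :=
      MulAction.mem_stabilizer_iff.mp π.2
    rw [hM2 g, h0, add_zero]
  choose f hf using hex
  have hf1 : f 1 = 1 := by
    apply Subtype.ext
    rw [← act_eq_iff]
    intro v
    rw [← hf]
    exact (act_one v).symm
  have hfm : ∀ π ρ, f (π * ρ) = f π * f ρ := by
    intro π ρ
    apply Subtype.ext
    rw [← act_eq_iff]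
    intro v
    have h1 : act ((f π * f ρ : stab (T (F ψ))) : SL p) v
        = act (f π : SL p) (act (f ρ : SL p) v) := act_mul _ _ v
    rw [h1, ← hf, ← hf, ← hf]
    rfl
  let F' : MulAction.stabilizer (symGroup ψ) (0 : ZMod p × ZMod p) →* stab (T (F ψ)) :=
    { toFun := f, map_one' := hf1, map_mul' := hfm }
  have hinj : Function.Injective F' := by
    intro π ρ h
    apply Subtype.ext
    apply Subtype.ext
    ext1 g
    rw [hf, hf]
    have h1 : f π = f ρ := h
    rw [h1]
  have hcard := Subgroup.card_dvd_of_injective F' hinj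
  have htrans : MulAction.IsPretransitive (symGroup ψ) (ZMod p × ZMod p) := by
    constructor
    intro x y
    refine ⟨⟨Equiv.addRight (y - x), sym_add ψ _⟩, ?_⟩
    show x + (y - x) = y
    abel
  refine ⟨isCyclic_of_injective F' hinj, hodd.of_dvd_nat hcard,
    hdvd.imp (fun h => hcard.trans h) (fun h => hcard.trans h), ?_, ?_⟩
  · have h1 := Subgroup.card_mul_index
      (MulAction.stabilizer (symGroup ψ) (0 : ZMod p × ZMod p))
    rw [MulAction.index_stabilizer_of_transitive, Nat.card_prod, Nat.card_zmod] at h1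
    rw [← h1]
    ring
  · intro π hπ
    obtain ⟨M, hM1, hM2⟩ := linear_part hp5 hψ hπ
    by_cases hM : M = 1
    · left
      refine ⟨π 0, fun g => ?_⟩
      rw [hM2 g, hM, act_one]
    · right
      have hinj' : Function.Injective (fun g : ZMod p × ZMod p => g - act M g) := by
        intro g h hgh
        simp only at hgh
        by_contra hne
        apply hM
        apply hfix M hM1 (g - h) (sub_ne_zero.mpr hne)
        rw [sub_eq_add_neg g h, act_add, act_neg]
        have h1 : g = h - act M h + act M g := by rw [← hgh]; abel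
        conv_rhs => rw [h1]
        abel
      have hsurj := Finite.surjective_of_injective hinj'
      obtain ⟨g, hg⟩ := hsurj (π 0)
      simp only at hg
      refine ⟨g, ?_, ?_⟩
      · show π g = g
        rw [hM2 g, ← hg]; abel
      · intro h hh
        apply hinj'
        show h - act M h = g - act M g
        rw [hg]
        have h1 : π h = h := hh
        rw [hM2 h] at h1
        rw [sub_eq_iff_eq_add, add_comm]
        exact h1.symm

end Pool.Agent.H138.Cnt.CliffSym
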