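import Pool.Agent.H138.Cnt.Ovl

/-!
# Fiducial vectors, triple products and their symmetries
-/

set_option autoImplicit false

namespace Pool.Agent.H138.Cnt

open Finset ComplexConjugate

variable {p : ℕ} [Fact p.Prime]

/-- the orbit of `ψ` is a maximal equiangular tight frame -/
def Fid (ψ : ZMod p → ℂ) : Prop :=
  F ψ 0 = 1 ∧ ∀ v, v ≠ 0 → ‖F ψ v‖ = 1 / √((p : ℝ) + 1)

theorem Fid.ne {ψ : ZMod p → ℂ} (h : Fid ψ) (v : ZMod p × ZMod p) : F ψ v ≠ 0 := by
  by_cases hv : v = 0
  · rw [hv, h.1]; exact one_ne_zero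
  · intro h0
    have h1 := h.2 v hv
    rw [h0, norm_zero] at h1
    have h2 : 0 < 1 / √((p : ℝ) + 1) := by positivity
    exact absurd h1 h2.ne

/-- functions obtained from overlap functions by a substitution are overlap functions -/
def Good (a b c d : ZMod p) : Prop :=
  ∀ ψ : ZMod p → ℂ, ∃ ψ' : ZMod p → ℂ, ∀ v : ZMod p × ZMod p,
    F ψ' v = F ψ (a * v.1 + b * v.2, c * v.1 + d * v.2)

theorem Good.mul {a b c d a' b' c' d' : ZMod p} (h : Good a b c d) (h' : Good a' b' c' d') :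
    Good (a * a' + b * c') (a * b' + b * d') (c * a' + d * c') (c * b' + d * d') := by
  intro ψ
  obtain ⟨ψ1, h1⟩ := h ψ
  obtain ⟨ψ2, h2⟩ := h' ψ1
  refine ⟨ψ2, fun v => ?_⟩
  rw [h2, h1]
  congr 1
  ext <;> simp only <;> ring

section odd

variable (hp2 : p ≠ 2)

include hp2

theorem good_chirp (s : ZMod p) : Good 1 0 s 1 := by
  intro ψ
  refine ⟨fun x => e (2⁻¹ * s * x ^ 2) * ψ x, fun v => ?_⟩
  rw [F_chirp hp2]
  congr 1
  ext <;> simp only <;> ring

theorem good_four : Good (0 : ZMod p) (-1) 1 0 := by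
  intro ψ
  refine ⟨fun y => ((√(p : ℝ) : ℝ) : ℂ)⁻¹ * ∑ x, ψ x * e (x * y), fun v => ?_⟩
  rw [F_four hp2]
  congr 1
  ext <;> simp only <;> ring

theorem good_up (y : ZMod p) : Good 1 y 0 1 := by
  have hw := good_four hp2
  have h1 := ((((hw.mul (good_chirp hp2 (-y))).mul hw).mul hw).mul hw)
  convert h1 using 1 <;> ring

theorem good_all {a b c d : ZMod p} (h : a * d - b * c = 1) : Good a b c d := by
  have key : ∀ a b c d : ZMod p, a * d - b * c = 1 → c ≠ 0 → Good a b c d := by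
    intro a b c d h hc
    have h1 := ((good_up hp2 ((a - 1) / c)).mul (good_chirp hp2 c)).mul
      (good_up hp2 ((d - 1) / c))
    convert h1 using 1
    · field_simp; ring
    · field_simp
      linear_combination -h
    · ring
    · field_simp; ring
  by_cases hc : c = 0
  · have hw := good_four hp2
    subst hc
    have hd : d ≠ 0 := by
      intro h0
      rw [h0] at h
      simp at h
    have h1 := (((key b (-a) d 0 (by linear_combination h) hd).mul hw).mul hw).mul hw
    convert h1 using 1 <;> ring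
  · exact key a b c d h hc

end odd

/-- additive characters of `ℤ/p` -/
theorem char_eq (c : ZMod p → ℂ) (h0 : c 0 = 1) (hadd : ∀ x y, c (x + y) = c x * c y) :
    ∃ t : ZMod p, ∀ x, c x = e (t * x) := by
  have hp : p.Prime := Fact.out
  have hpow : ∀ (n : ℕ) (x : ZMod p), c (n * x) = c x ^ n := by
    intro n x
    induction n with
    | zero => simp [h0]
    | succ n ih =>
      rw [pow_succ, ← ih, ← hadd]
      congr 1
      push_cast
      ring
  have h1 : c 1 ^ p = 1 := by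
    rw [← hpow, CharP.cast_eq_zero, zero_mul, h0]
  have hprim : IsPrimitiveRoot (e (1 : ZMod p)) p := by
    have h2 : e (1 : ZMod p) ≠ 1 := by
      intro h
      rw [← e_zero (p := p)] at h
      exact one_ne_zero (e_inj h)
    have h3 := orderOf_eq_prime (e_pow 1) h2
    have h4 := IsPrimitiveRoot.orderOf (e (1 : ZMod p))
    rwa [h3] at h4
  have : NeZero p := ⟨hp.ne_zero⟩
  obtain ⟨i, _, hi⟩ := hprim.eq_pow_of_pow_eq_one h1
  have hepow : ∀ (n : ℕ) (x : ZMod p), e ((n : ZMod p) * x) = e x ^ n := by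
    intro n x
    rw [e, e, ← AddChar.map_nsmul_eq_pow, nsmul_eq_mul]
  refine ⟨(i : ZMod p), fun x => ?_⟩
  have h2 : x = ((x.val : ℕ) : ZMod p) * 1 := by rw [ZMod.natCast_zmod_val, mul_one]
  rw [h2, hpow, ← hi, ← pow_mul, mul_one, ← Nat.cast_mul, ← mul_one ((i * x.val : ℕ) : ZMod p),
    hepow]

/-- triple products -/
def T (f : ZMod p × ZMod p → ℂ) (u v : ZMod p × ZMod p) : ℂ := f u * f v * f (-u - v)

theorem br_add (h u v : ZMod p × ZMod p) : br h (u + v) = br h u * br h v := by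
  rw [br, br, br, ← e_add]
  congr 1
  rw [Prod.fst_add, Prod.snd_add]
  ring

theorem br_zero (h : ZMod p × ZMod p) : br h 0 = 1 := by
  rw [br]
  simp [e_zero]

theorem br_neg (h v : ZMod p × ZMod p) : br h (-v) * br h v = 1 := by
  rw [← br_add, neg_add_cancel, br_zero]

section odd

variable (hp2 : p ≠ 2)

include hp2

theorem T_D (h : ZMod p × ZMod p) (ψ : ZMod p → ℂ) : T (F (D h ψ)) = T (F ψ) := by
  funext u v
  simp only [T, F_D hp2]
  have h1 : br h u * br h v * br h (-u - v) = 1 := by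
    have : -u - v = -(u + v) := by abel
    rw [this, ← br_add, mul_comm, br_neg]
  linear_combination (F ψ u * F ψ v * F ψ (-u - v)) * h1

omit hp2 in
/-- vectors with the same triple products -/
theorem T_eq {ψ ψ' : ZMod p → ℂ} (hψ : Fid ψ) (hψ' : Fid ψ') (h : T (F ψ) = T (F ψ')) :
    ∃ k, ∀ v, F ψ' v = br k v * F ψ v := by
  let r : ZMod p × ZMod p → ℂ := fun v => F ψ' v / F ψ v
  have hr0 : r 0 = 1 := by
    show F ψ' 0 / F ψ 0 = 1
    rw [hψ.1, hψ'.1, div_one]
  have hrT : ∀ u v, r u * r v * r (-u - v) = 1 := by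
    intro u v
    have h1 := congrFun (congrFun h u) v
    simp only [T] at h1
    show F ψ' u / F ψ u * (F ψ' v / F ψ v) * (F ψ' (-u - v) / F ψ (-u - v)) = 1
    have h2 := hψ.ne u
    have h3 := hψ.ne v
    have h4 := hψ.ne (-u - v)
    field_simp
    linear_combination -h1
  have hneg : ∀ v, r v * r (-v) = 1 := by
    intro v
    have h1 := hrT v 0
    rw [hr0, mul_one, sub_zero] at h1
    exact h1
  have hadd : ∀ u v, r (u + v) = r u * r v := by
    intro u v
    have h1 := hrT u v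
    have h2 : -u - v = -(u + v) := by abel
    rw [h2] at h1
    have h3 := hneg (u + v)
    have h4 : r (-(u + v)) ≠ 0 := right_ne_zero_of_mul_eq_one h3
    exact mul_right_cancel₀ h4 (by rw [h1, h3])
  obtain ⟨s, hs⟩ := char_eq (fun x => r (x, 0)) hr0 (fun x y => by
    rw [← hadd]; simp)
  obtain ⟨t, ht⟩ := char_eq (fun x => r (0, x)) hr0 (fun x y => by
    rw [← hadd]; simp)
  refine ⟨(-t, s), fun v => ?_⟩
  have h1 : r v = br (-t, s) v := by
    have h2 : v = (v.1, 0) + (0, v.2) := by simp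
    conv_lhs => rw [h2, hadd]
    rw [hs, ht, ← e_add, br]
    congr 1
    ring
  rw [← h1]
  show F ψ' v = F ψ' v / F ψ v * F ψ v
  rw [div_mul_cancel₀ _ (hψ.ne v)]

/-- the parity operator is no symmetry -/
theorem no_parity (hp5 : 5 ≤ p) {ψ : ZMod p → ℂ} (hψ : Fid ψ)
    (h : ∀ u v, T (F ψ) (-u) (-v) = T (F ψ) u v) : False := by
  have h2 := two_ne hp2
  have hp : p.Prime := Fact.out
  -- a symmetric vector in the orbit
  have hpar : Fid (fun x => ψ (-x)) := by
    constructor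
    · rw [F_par hp2, neg_zero, hψ.1]
    · intro v hv
      rw [F_par hp2, hψ.2 _ (neg_ne_zero.mpr hv)]
  obtain ⟨h0, hh⟩ := T_eq hψ hpar (by
    funext u v
    have h3 := h u v
    have h4 : -(-u - v) = - -u - -v := by abel
    simp only [T, F_par hp2] at h3 ⊢
    rw [h4]
    exact h3.symm)
  simp only [F_par hp2] at hh
  obtain ⟨k, hk⟩ : ∃ k : ZMod p × ZMod p, k + k = h0 :=
    ⟨(2⁻¹ * h0.1, 2⁻¹ * h0.2), by ext <;> simp only [Prod.fst_add, Prod.snd_add] <;> field_simp <;>
      ring⟩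
  set φ := D k ψ with hφ
  have hφF : ∀ v, F φ v = br k v * F ψ v := fun v => F_D hp2 k v ψ
  have hbrk : ∀ v, br h0 v = br k v * br k v := by
    intro v
    rw [← hk, br, br, ← e_add]
    congr 1
    rw [Prod.fst_add, Prod.snd_add]
    ring
  have hφs : ∀ v, F φ (-v) = F φ v := by
    intro v
    rw [hφF, hφF, hh, hbrk]
    have := br_neg k v
    linear_combination (br k v * F ψ v) * this
  have hnb : ∀ v, ‖br k v‖ = 1 := fun v => e_norm _
  have hφ0 : F φ 0 = 1 := by rw [hφF, br_zero, one_mul, hψ.1]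
  have hφn : ∀ v, v ≠ 0 → ‖F φ v‖ = 1 / √((p : ℝ) + 1) := by
    intro v hv
    rw [hφF, norm_mul, hnb, one_mul, hψ.2 v hv]
  have hinj := F_inj hp2 (ψ := fun x => φ (-x)) (ψ' := φ) (by
    funext v
    rw [F_par hp2, hφs])
  obtain ⟨x0, hx0⟩ : ∃ x0, φ x0 ≠ 0 := by
    by_contra hall
    push Not at hall
    rw [F_zero] at hφ0
    simp [hall] at hφ0
  have hx0' : φ (-x0) ≠ 0 := by
    intro h3
    have h4 := hinj x0 x0
    simp only [h3, mul_zero] at h4
    exact hx0 ((mul_eq_zero.mp h4.symm).resolve_left (fun h5 => hx0 ((map_eq_zero _).mp h5)))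
  -- the vector is even or odd
  obtain ⟨κ, hκ⟩ : ∃ κ : ℂ, ∀ y, φ (-y) = κ * φ y := by
    refine ⟨conj (φ x0) / conj (φ (-x0)), fun y => ?_⟩
    have h3 := hinj x0 y
    have h4 : conj (φ (-x0)) ≠ 0 := (map_ne_zero _).mpr hx0'
    field_simp
    linear_combination h3
  have hκ2 : κ = 1 ∨ κ = -1 := by
    have h3 : φ x0 = κ * (κ * φ x0) := by
      rw [← hκ, ← hκ, neg_neg]
    have h4 : (κ - 1) * (κ + 1) * φ x0 = 0 := by linear_combination -h3
    rcases mul_eq_zero.mp h4 with h5 | h5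
    · rcases mul_eq_zero.mp h5 with h6 | h6
      · exact Or.inl (sub_eq_zero.mp h6)
      · exact Or.inr (eq_neg_of_add_eq_zero_left h6)
    · exact absurd h5 hx0
  have hsum : ∑ v, F φ v = (p : ℂ) * κ := by
    rw [sum_F hp2]
    congr 1
    have hφ0' : ∑ x, conj (φ x) * φ x = 1 := by rw [← F_zero, hφ0]
    calc ∑ x, conj (φ x) * φ (-x) = κ * ∑ x, conj (φ x) * φ x := by
          rw [Finset.mul_sum]
          apply Finset.sum_congr rfl
          intro x _
          rw [hκ]; ring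
      _ = κ := by rw [hφ0', mul_one]
  -- the overlaps are real
  have hD0 : (0 : ℝ) < √((p : ℝ) + 1) := by positivity
  have hreal : ∀ v, v ≠ 0 → ∃ n : ℤ, ((√((p : ℝ) + 1) : ℝ) : ℂ) * F φ v = n := by
    intro v hv
    have h3 : conj (F φ v) = F φ v := by rw [← F_neg hp2, hφs]
    obtain ⟨r, hr⟩ := Complex.conj_eq_iff_real.mp h3
    have h4 := hφn v hv
    rw [hr, Complex.norm_real, Real.norm_eq_abs] at h4
    have h5 : √((p : ℝ) + 1) * |r| = 1 := by
      rw [h4]; field_simp
    rcases abs_cases r with ⟨h6, _⟩ | ⟨h6, _⟩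
    · refine ⟨1, ?_⟩
      rw [hr, ← Complex.ofReal_mul, ← h6, h5]
      simp
    · refine ⟨-1, ?_⟩
      have h7 : √((p : ℝ) + 1) * r = -1 := by
        have : r = -|r| := by linarith
        rw [this, mul_neg, h5]
      rw [hr, ← Complex.ofReal_mul, h7]
      simp
  choose! n hn using hreal
  have hsum2 : ((√((p : ℝ) + 1) : ℝ) : ℂ) * ((p : ℂ) * κ - 1)
      = ((∑ v ∈ univ.erase (0 : ZMod p × ZMod p), n v : ℤ) : ℂ) := by
    rw [← hsum, ← Finset.add_sum_erase univ _ (mem_univ (0 : ZMod p × ZMod p)), hφ0,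
      add_sub_cancel_left, Finset.mul_sum]
    push_cast
    apply Finset.sum_congr rfl
    intro v hv
    rw [hn v (Finset.ne_of_mem_erase hv)]
  obtain ⟨k', hk'0, hk'⟩ : ∃ k' : ℤ, k' ≠ 0 ∧ (p : ℂ) * κ - 1 = k' := by
    rcases hκ2 with h3 | h3
    · refine ⟨(p : ℤ) - 1, by omega, ?_⟩
      rw [h3]; push_cast; ring
    · refine ⟨-(p : ℤ) - 1, by omega, ?_⟩
      rw [h3]; push_cast; ring
  rw [hk'] at hsum2
  set N := ∑ v ∈ univ.erase (0 : ZMod p × ZMod p), n v with hN
  have h3 : ((p : ℤ) + 1) * k' ^ 2 = N ^ 2 := by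
    have h4 : ((p : ℂ) + 1) * (k' : ℂ) ^ 2 = (N : ℂ) ^ 2 := by
      rw [← hsum2, mul_pow, ← Complex.ofReal_pow, Real.sq_sqrt (by positivity)]
      push_cast
      ring
    exact_mod_cast h4
  have h4 : IsSquare ((p : ℤ) + 1) := by
    have h5 : k' ^ 2 ∣ N ^ 2 := ⟨(p : ℤ) + 1, by rw [← h3]; ring⟩
    rw [Int.pow_dvd_pow_iff two_ne_zero] at h5
    obtain ⟨m, hm⟩ := h5
    refine ⟨m, ?_⟩
    have h6 : k' ^ 2 ≠ 0 := pow_ne_zero _ hk'0
    apply mul_right_cancel₀ h6
    rw [h3, hm]; ring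
  obtain ⟨m, hm⟩ := h4
  have h5 : (m.natAbs : ℤ) * m.natAbs = (p : ℤ) + 1 := by rw [Int.natAbs_mul_self']; exact hm.symm
  have h6 : m.natAbs * m.natAbs = p + 1 := by exact_mod_cast h5
  set q := m.natAbs with hq
  have hq2 : 3 ≤ q := by
    by_contra hcon
    push Not at hcon
    have : q * q ≤ 2 * 2 := Nat.mul_le_mul (by omega) (by omega)
    omega
  have h7 : (q - 1) * (q + 1) = p := by
    clear_value q
    obtain ⟨q', rfl⟩ : ∃ q', q = q' + 1 := ⟨q - 1, by omega⟩
    simp only [Nat.add_sub_cancel]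
    nlinarith
  have h8 := hp.isUnit_or_isUnit h7.symm
  rcases h8 with h8 | h8
  · rw [Nat.isUnit_iff] at h8; omega
  · rw [Nat.isUnit_iff] at h8; omega

/-- chirps are no symmetries -/
theorem no_chirp (hp5 : 5 ≤ p) {ψ : ZMod p → ℂ} (hψ : Fid ψ) {s : ZMod p} (hs : s ≠ 0)
    (h : ∀ u v, T (F ψ) (u.1, s * u.1 + u.2) (v.1, s * v.1 + v.2) = T (F ψ) u v) : False := by
  have h2 := two_ne hp2
  have hp : p.Prime := Fact.out
  have hch : Fid (fun x => e (2⁻¹ * s * x ^ 2) * ψ x) := by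
    constructor
    · rw [F_chirp hp2]
      have : (((0 : ZMod p × ZMod p).1, s * (0 : ZMod p × ZMod p).1 + (0 : ZMod p × ZMod p).2)
          : ZMod p × ZMod p) = 0 := by ext <;> simp
      rw [this, hψ.1]
    · intro v hv
      rw [F_chirp hp2]
      apply hψ.2
      intro h0
      apply hv
      have h3 : v.1 = 0 := congrArg Prod.fst h0
      have h4 : s * v.1 + v.2 = 0 := congrArg Prod.snd h0
      rw [h3, mul_zero, zero_add] at h4
      exact Prod.ext h3 h4
  obtain ⟨k, hk⟩ := T_eq hψ hch (by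
    funext u v
    have h3 := h u v
    have h4 : (((-u - v).1, s * (-u - v).1 + (-u - v).2) : ZMod p × ZMod p)
        = -(u.1, s * u.1 + u.2) - (v.1, s * v.1 + v.2) := by
      ext
      · simp
      · simp only [Prod.snd_sub, Prod.snd_neg, Prod.fst_sub, Prod.fst_neg]; ring
    simp only [T, F_chirp hp2] at h3 ⊢
    rw [h4]
    exact h3.symm)
  simp only [F_chirp hp2] at hk
  have hk1 : k.1 = 0 := by
    have h3 := hk (0, 1)
    simp only [mul_zero, zero_add] at h3
    have h4 : br k (0, 1) = 1 := by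
      have h5 := hψ.ne (0, 1)
      exact mul_right_cancel₀ h5 (by rw [one_mul]; exact h3.symm)
    rw [br, ← e_zero (p := p)] at h4
    have h5 := e_inj h4
    simp only [mul_zero, zero_sub, mul_one, neg_eq_zero] at h5
    exact h5
  -- the overlaps on the lines of slope infinity
  have hline : ∀ a : ZMod p, a ≠ 0 → ∀ b, F ψ (a, b) = e (k.2 / s * b) * F ψ (a, 0) := by
    intro a ha
    have h3 : ∀ n : ℕ, F ψ (a, (n : ZMod p) * (s * a)) = e (k.2 * a * (n : ZMod p)) * F ψ (a, 0) := by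
      intro n
      induction n with
      | zero => simp [e_zero]
      | succ n ih =>
        have h4 := hk (a, (n : ZMod p) * (s * a))
        simp only at h4
        have h5 : ((n + 1 : ℕ) : ZMod p) * (s * a) = s * a + n * (s * a) := by push_cast; ring
        rw [h5, h4, ih, br, hk1, ← mul_assoc, ← e_add]
        congr 2
        push_cast
        ring
    intro b
    have h4 := h3 (b / (s * a)).val
    rw [ZMod.natCast_zmod_val] at h4
    have h5 : b / (s * a) * (s * a) = b := by field_simp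
    have h6 : k.2 * a * (b / (s * a)) = k.2 / s * b := by field_simp
    rw [h5, h6] at h4
    exact h4
  set β := k.2 / s with hβ
  have hrec : ∀ a : ZMod p, a ≠ 0 → ∀ x, (p : ℂ) * (conj (ψ x) * ψ (x + a))
      = F ψ (a, 0) * (if β - x - 2⁻¹ * a = 0 then (p : ℂ) else 0) := by
    intro a ha x
    rw [← recover hp2, ← sum_e, Finset.mul_sum]
    apply Finset.sum_congr rfl
    intro b _
    rw [hline a ha b]
    have h3 : e (-(b * (x + 2⁻¹ * a))) * e (β * b) = e (b * (β - x - 2⁻¹ * a)) := by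
      rw [← e_add]
      congr 1
      ring
    linear_combination (F ψ (a, 0)) * h3
  have hsup : ∀ a : ZMod p, a ≠ 0 → ψ (β - 2⁻¹ * a) ≠ 0 := by
    intro a ha h0
    have h3 := hrec a ha (β - 2⁻¹ * a)
    rw [h0, map_zero, zero_mul, mul_zero, if_pos (by ring)] at h3
    exact (mul_ne_zero (hψ.ne _) p_ne) h3.symm
  have h12 : (1 : ZMod p) ≠ 0 := one_ne_zero
  have h3ne : (3 : ZMod p) ≠ 0 := by
    intro h3
    have h4 : ((3 : ℕ) : ZMod p) = 0 := by exact_mod_cast h3
    rw [ZMod.natCast_eq_zero_iff] at h4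
    have := Nat.le_of_dvd (by norm_num) h4
    omega
  have hx := hsup 1 h12
  have hy := hsup 2 h2
  have ha : (-2⁻¹ : ZMod p) ≠ 0 := neg_ne_zero.mpr (inv_ne_zero h2)
  have h3 := hrec (-2⁻¹) ha (β - 2⁻¹ * 1)
  have e1 : β - 2⁻¹ * 1 + -2⁻¹ = β - 2⁻¹ * 2 := by field_simp; ring
  rw [e1, if_neg, mul_zero] at h3
  · rcases mul_eq_zero.mp h3 with h4 | h4
    · exact p_ne h4
    · rcases mul_eq_zero.mp h4 with h5 | h5
      · exact hx ((map_eq_zero _).mp h5)
      · exact hy h5
  · intro h4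
    apply h3ne
    have h5 : β - (β - 2⁻¹ * 1) - 2⁻¹ * -2⁻¹ = 3 / 4 * ((2 : ZMod p) * 2⁻¹) * 1 := by
      have h4' : (4 : ZMod p) ≠ 0 := by
        have : (4 : ZMod p) = 2 * 2 := by norm_num
        rw [this]; exact mul_ne_zero h2 h2
      field_simp
      ring
    have h6 : (4 : ZMod p) ≠ 0 := by
      have : (4 : ZMod p) = 2 * 2 := by norm_num
      rw [this]; exact mul_ne_zero h2 h2
    rw [h5, mul_inv_cancel₀ h2, mul_one, mul_one, div_eq_zero_iff] at h4
    exact h4.resolve_right h6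

end odd

end Pool.Agent.H138.Cnt
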