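import Pool.Agent.H138.Cnt.Fid
import Pool.Graph.R_seed8.Y387.SF.Fin

/-!
# The special linear group acts on the triple product functions
-/

set_option autoImplicit false

namespace Pool.Agent.H138.Cnt

open Finset ComplexConjugate

variable {p : ℕ} [Fact p.Prime]

/-- the special linear group -/
abbrev SL (p : ℕ) := Matrix.SpecialLinearGroup (Fin 2) (ZMod p)

/-- the action on the plane -/
def act (M : SL p) (v : ZMod p × ZMod p) : ZMod p × ZMod p :=
  (M.1 0 0 * v.1 + M.1 0 1 * v.2, M.1 1 0 * v.1 + M.1 1 1 * v.2)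

theorem act_one (v : ZMod p × ZMod p) : act (1 : SL p) v = v := by
  ext <;> simp [act]

theorem act_mul (M N : SL p) (v : ZMod p × ZMod p) : act (M * N) v = act M (act N v) := by
  ext
  · simp only [act, Matrix.SpecialLinearGroup.coe_mul, Matrix.mul_apply, Fin.sum_univ_two]
    ring
  · simp only [act, Matrix.SpecialLinearGroup.coe_mul, Matrix.mul_apply, Fin.sum_univ_two]
    ring

theorem act_zero (M : SL p) : act M 0 = 0 := by
  ext <;> simp [act]

theorem act_neg (M : SL p) (v : ZMod p × ZMod p) : act M (-v) = -act M v := by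
  ext <;> simp only [act, Prod.fst_neg, Prod.snd_neg] <;> ring

theorem act_add (M : SL p) (u v : ZMod p × ZMod p) : act M (u + v) = act M u + act M v := by
  ext <;> simp only [act, Prod.fst_add, Prod.snd_add] <;> ring

theorem act_inj (M : SL p) {u v : ZMod p × ZMod p} (h : act M u = act M v) : u = v := by
  have h1 := congrArg (act M⁻¹) h
  rwa [← act_mul, ← act_mul, inv_mul_cancel, act_one, act_one] at h1

instance instPlane : MulAction (SL p) (ZMod p × ZMod p) where
  smul M v := act M v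
  one_smul := act_one
  mul_smul := act_mul

theorem smul_eq (M : SL p) (v : ZMod p × ZMod p) : M • v = act M v := rfl

/-- the triple product functions of fiducial vectors -/
def X (p : ℕ) [Fact p.Prime] : Set (ZMod p × ZMod p → ZMod p × ZMod p → ℂ) :=
  {t | ∃ ψ, Fid ψ ∧ t = T (F ψ)}

theorem act_fid (hp2 : p ≠ 2) (M : SL p) {ψ : ZMod p → ℂ} (hψ : Fid ψ) :
    ∃ ψ', Fid ψ' ∧ ∀ v, F ψ' v = F ψ (act M v) := by
  have hdet : M.1 0 0 * M.1 1 1 - M.1 0 1 * M.1 1 0 = 1 := by
    have := M.2
    rwa [Matrix.det_fin_two] at this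
  obtain ⟨ψ', h⟩ := good_all hp2 hdet ψ
  refine ⟨ψ', ⟨?_, fun v hv => ?_⟩, h⟩
  · rw [h]
    exact (congrArg (F ψ) (act_zero M)).trans hψ.1
  · rw [h]
    apply hψ.2
    intro h0
    apply hv
    apply act_inj M
    rw [act_zero]
    exact h0

theorem act_mem (hp2 : p ≠ 2) (M : SL p) {t : ZMod p × ZMod p → ZMod p × ZMod p → ℂ}
    (ht : t ∈ X p) : (fun u v => t (act M u) (act M v)) ∈ X p := by
  obtain ⟨ψ, hψ, rfl⟩ := ht
  obtain ⟨ψ', h1, h2⟩ := act_fid hp2 M hψ
  refine ⟨ψ', h1, ?_⟩
  funext u v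
  simp only [T, h2]
  have : act M (-u - v) = -act M u - act M v := by
    rw [sub_eq_add_neg, act_add, act_neg, act_neg, ← sub_eq_add_neg]
  rw [this]

/-- the action on the triple product functions -/
@[instance_reducible]
def actX (hp2 : p ≠ 2) : MulAction (SL p) (X p) where
  smul M t := ⟨fun u v => t.1 (act M⁻¹ u) (act M⁻¹ v), act_mem hp2 _ t.2⟩
  one_smul t := by
    apply Subtype.ext
    funext u v
    show t.1 (act (1 : SL p)⁻¹ u) (act (1 : SL p)⁻¹ v) = t.1 u v
    rw [inv_one, act_one, act_one]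
  mul_smul M N t := by
    apply Subtype.ext
    funext u v
    show t.1 (act (M * N)⁻¹ u) (act (M * N)⁻¹ v)
      = t.1 (act N⁻¹ (act M⁻¹ u)) (act N⁻¹ (act M⁻¹ v))
    rw [mul_inv_rev, act_mul, act_mul]

/-- elements of order two are `-1` -/
theorem eq_neg_one (hp2 : p ≠ 2) {N : SL p} (h : N * N = 1) (h1 : N ≠ 1) :
    ∀ v, act N v = -v := by
  have h2 := two_ne hp2
  have hinv : N = N⁻¹ := eq_inv_of_mul_eq_one_left h
  have hadj : N.1 = Matrix.adjugate N.1 := by
    conv_lhs => rw [hinv]
    rw [Matrix.SpecialLinearGroup.coe_inv]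
  rw [Matrix.adjugate_fin_two] at hadj
  have h00 := congrFun (congrFun hadj 0) 0
  have h01 := congrFun (congrFun hadj 0) 1
  have h10 := congrFun (congrFun hadj 1) 0
  simp only [Matrix.of_apply, Matrix.cons_val', Matrix.cons_val_zero, Matrix.cons_val_one,
    Matrix.cons_val_fin_one] at h00 h01 h10
  have b0 : N.1 0 1 = 0 := by
    have : 2 * N.1 0 1 = 0 := by linear_combination h01
    exact (mul_eq_zero.mp this).resolve_left h2
  have c0 : N.1 1 0 = 0 := by
    have : 2 * N.1 1 0 = 0 := by linear_combination h10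
    exact (mul_eq_zero.mp this).resolve_left h2
  have hdet : N.1 0 0 * N.1 1 1 - N.1 0 1 * N.1 1 0 = 1 := by
    have := N.2
    rwa [Matrix.det_fin_two] at this
  rw [b0, zero_mul, sub_zero, ← h00] at hdet
  have hsq : (N.1 0 0 - 1) * (N.1 0 0 + 1) = 0 := by linear_combination hdet
  rcases mul_eq_zero.mp hsq with h3 | h3
  · exfalso
    apply h1
    have h4 : N.1 0 0 = 1 := sub_eq_zero.mp h3
    ext i j
    fin_cases i <;> fin_cases j
    · exact h4
    · exact b0
    · exact c0
    · exact h00.symm.trans h4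
  · have h4 : N.1 0 0 = -1 := eq_neg_of_add_eq_zero_left h3
    intro v
    have h5 : N.1 1 1 = -1 := h00.symm.trans h4
    ext
    · show N.1 0 0 * v.1 + N.1 0 1 * v.2 = -v.1
      rw [h4, b0]; ring
    · show N.1 1 0 * v.1 + N.1 1 1 * v.2 = -v.2
      rw [h5, c0]; ring

/-- nontrivial elements of order a power of two fix no triple product function -/
theorem free_two (hp5 : 5 ≤ p) (hp2 : p ≠ 2) {t : ZMod p × ZMod p → ZMod p × ZMod p → ℂ}
    (ht : t ∈ X p) {M : SL p} {k : ℕ} (hk : M ^ (2 ^ k) = 1)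
    (hM : ∀ u v, t (act M u) (act M v) = t u v) : M = 1 := by
  induction k generalizing M with
  | zero => simpa using hk
  | succ k ih =>
    have hN : ∀ n : ℕ, ∀ u v, t (act (M ^ n) u) (act (M ^ n) v) = t u v := by
      intro n
      induction n with
      | zero => intro u v; rw [pow_zero, act_one, act_one]
      | succ n ihn =>
        intro u v
        rw [pow_succ, act_mul, act_mul, ihn, hM]
    by_cases h1 : M ^ (2 ^ k) = 1
    · exact ih h1 hM
    · exfalso
      have h2 : M ^ (2 ^ k) * M ^ (2 ^ k) = 1 := by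
        rw [← pow_add, ← two_mul, ← pow_succ', hk]
      have h3 := eq_neg_one hp2 h2 h1
      obtain ⟨ψ, hψ, rfl⟩ := ht
      apply no_parity hp2 hp5 hψ
      intro u v
      have h4 := hN (2 ^ k) u v
      rwa [h3, h3] at h4

theorem orbit_card : (p ^ 2 - 1) ∣ Nat.card (SL p) := by
  have hp : p.Prime := Fact.out
  have h2 : MulAction.orbit (SL p) ((1, 0) : ZMod p × ZMod p) = {0}ᶜ := by
    ext v
    constructor
    · rintro ⟨M, rfl⟩ h0
      have h3 : act M (1, 0) = act M 0 := by
        rw [act_zero]; exact h0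
      have h4 := act_inj M h3
      exact one_ne_zero (congrArg Prod.fst h4)
    · intro hv
      by_cases ha : v.1 = 0
      · have hc : v.2 ≠ 0 := fun hc => hv (Prod.ext ha hc)
        refine ⟨⟨!![0, -(v.2)⁻¹; v.2, 0], ?_⟩, ?_⟩
        · rw [Matrix.det_fin_two_of]
          field_simp
          ring
        · ext
          · show (0 : ZMod p) * 1 + -(v.2)⁻¹ * 0 = v.1
            rw [ha]; ring
          · show v.2 * 1 + 0 * 0 = v.2
            ring
      · refine ⟨⟨!![v.1, 0; v.2, (v.1)⁻¹], ?_⟩, ?_⟩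
        · rw [Matrix.det_fin_two_of]
          field_simp
          ring
        · ext
          · show v.1 * 1 + 0 * 0 = v.1
            ring
          · show v.2 * 1 + (v.1)⁻¹ * 0 = v.2
            ring
  have h3 : (MulAction.orbit (SL p) ((1, 0) : ZMod p × ZMod p)).ncard = p ^ 2 - 1 := by
    rw [h2, Set.ncard_compl, Set.ncard_singleton, Nat.card_prod, Nat.card_zmod, sq]
  rw [← h3, ← MulAction.index_stabilizer]
  exact Subgroup.index_dvd_card _

/-- a subgroup acting freely has order dividing the number of triple product functions -/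
theorem free_dvd (hp2 : p ≠ 2) (K : Subgroup (SL p))
    (hfree : ∀ M ∈ K, ∀ t ∈ X p, (∀ u v, t (act M u) (act M v) = t u v) → M = 1) :
    Nat.card K ∣ (X p).ncard := by
  let _ := actX (p := p) hp2
  have hst : ∀ t : X p, MulAction.stabilizer K t = ⊥ := by
    intro t
    rw [eq_bot_iff]
    intro M hM
    rw [MulAction.mem_stabilizer_iff] at hM
    have h1 : ∀ u v, t.1 (act (M : SL p)⁻¹ u) (act (M : SL p)⁻¹ v) = t.1 u v := by
      intro u v
      have h2 := congrArg (fun t : X p => t.1 u v) hM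
      exact h2
    have h2 := hfree _ (K.inv_mem M.2) t.1 t.2 h1
    rw [Subgroup.mem_bot]
    apply Subtype.ext
    exact inv_eq_one.mp h2
  have h1 := Nat.card_congr (MulAction.selfEquivOrbitsQuotientProd hst)
  rw [Nat.card_coe_set_eq, Nat.card_prod] at h1
  exact ⟨_, h1.trans (mul_comm _ _)⟩

/-- the lower unipotent matrices -/
def low (s : ZMod p) : SL p := ⟨!![1, 0; s, 1], by rw [Matrix.det_fin_two_of]; ring⟩

theorem act_low (s : ZMod p) (v : ZMod p × ZMod p) : act (low s) v = (v.1, s * v.1 + v.2) := by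
  ext
  · show 1 * v.1 + 0 * v.2 = v.1
    ring
  · show s * v.1 + 1 * v.2 = s * v.1 + v.2
    ring

theorem low_add (s t : ZMod p) : low (s + t) = low s * low t := by
  ext i j
  rw [Matrix.SpecialLinearGroup.coe_mul, Matrix.mul_apply, Fin.sum_univ_two]
  fin_cases i <;> fin_cases j <;> simp [low]

theorem low_pow (n : ℕ) : low (1 : ZMod p) ^ n = low (n : ZMod p) := by
  induction n with
  | zero =>
    rw [pow_zero]
    ext i j
    fin_cases i <;> fin_cases j <;> simp [low]
  | succ n ih => rw [pow_succ, ih, ← low_add]; congr 1; push_cast; ring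

theorem low_zero : low (0 : ZMod p) = 1 := by
  have := low_pow (p := p) 0
  rw [pow_zero, Nat.cast_zero] at this
  exact this.symm

theorem low_order : orderOf (low (1 : ZMod p)) = p := by
  apply orderOf_eq_prime
  · rw [low_pow, CharP.cast_eq_zero, low_zero]
  · intro h
    have h1 := congrArg (fun M : SL p => M.1 1 0) h
    simp [low] at h1

theorem dvd_p (hp5 : 5 ≤ p) (hp2 : p ≠ 2) : p ∣ (X p).ncard := by
  have h := free_dvd hp2 (Subgroup.zpowers (low (1 : ZMod p))) (by
    intro M hM t ht hfix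
    obtain ⟨ψ, hψ, rfl⟩ := ht
    obtain ⟨n, hn⟩ := (Submonoid.mem_powers_iff _ _).mp ((mem_powers_iff_mem_zpowers).mpr hM)
    simp only [low_pow] at hn
    subst hn
    by_cases h0 : (n : ZMod p) = 0
    · rw [h0, low_zero]
    · exfalso
      apply no_chirp hp2 hp5 hψ h0
      intro u v
      have := hfix u v
      rwa [act_low, act_low] at this)
  rwa [Nat.card_zpowers, low_order] at h

theorem dvd_two (hp5 : 5 ≤ p) (hp2 : p ≠ 2) :
    2 ^ padicValNat 2 (p ^ 2 - 1) ∣ (X p).ncard := by
  have h1 : 2 ^ padicValNat 2 (p ^ 2 - 1) ∣ Nat.card (SL p) :=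
    pow_padicValNat_dvd.trans orbit_card
  obtain ⟨K, hK⟩ := Sylow.exists_subgroup_card_pow_prime 2 h1
  rw [← hK]
  apply free_dvd hp2
  intro M hM t ht hfix
  refine free_two hp5 hp2 ht (k := padicValNat 2 (p ^ 2 - 1)) ?_ hfix
  have h2 : (⟨M, hM⟩ : K) ^ Nat.card K = 1 := pow_card_eq_one'
  rw [hK] at h2
  exact congrArg Subtype.val h2

theorem X_finite (hp5 : 5 ≤ p) : (X p).Finite := by
  have hχ : (ZMod.stdAddChar : AddChar (ZMod p) ℂ) ≠ 1 := by
    intro h
    have h1 : (ZMod.stdAddChar (1 : ZMod p) : ℂ) = 1 := by rw [h]; rfl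
    have h2 : e (1 : ZMod p) = e (0 : ZMod p) := by rw [e_zero]; exact h1
    exact one_ne_zero (e_inj h2)
  have h := Pool.Agent.Y387.SF.finite_solutions hp5 hχ
  refine (h.image (fun m => T (fun v => e (2⁻¹ * v.1 * v.2) * ∑ x, m x (x + v.1) *
    e (v.2 * x)))).subset ?_
  rintro t ⟨ψ, hψ, rfl⟩
  refine ⟨fun i j => conj (ψ i) * ψ j, ⟨fun j => conj (ψ j), ψ, ?_, rfl⟩, rfl⟩
  constructor
  · rw [← F_zero, hψ.1]
  · intro a b hab
    have hv : ((a, b) : ZMod p × ZMod p) ≠ 0 := by
      intro h0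
      have h1 : a = 0 := congrArg Prod.fst h0
      have h2 : b = 0 := congrArg Prod.snd h0
      rcases hab with h3 | h3
      · exact h3 h1
      · exact h3 h2
    have h1 := hψ.2 _ hv
    have hcc : Pool.Agent.Y387.SF.cc ZMod.stdAddChar (fun j => conj (ψ j)) ψ a b
        = e (-(2⁻¹ * a * b)) * F ψ (a, b) := by
      rw [Pool.Agent.Y387.SF.cc, F, ← mul_assoc, ← e_add, neg_add_cancel, e_zero, one_mul]
      rfl
    have hcd : Pool.Agent.Y387.SF.cd ZMod.stdAddChar (fun j => conj (ψ j)) ψ a b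
        = conj (Pool.Agent.Y387.SF.cc ZMod.stdAddChar (fun j => conj (ψ j)) ψ a b) := by
      rw [Pool.Agent.Y387.SF.cc, Pool.Agent.Y387.SF.cd, map_sum]
      apply Finset.sum_congr rfl
      intro x _
      rw [map_mul, map_mul, Complex.conj_conj, AddChar.map_neg_eq_conj]
      ring
    rw [hcd, Complex.mul_conj, Complex.normSq_eq_norm_sq, hcc, norm_mul, e_norm, one_mul, h1,
      div_pow, one_pow, Real.sq_sqrt (by positivity)]
    push_cast
    rw [one_div]

/-- **The number of triple product functions.** -/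
theorem X_dvd (hp5 : 5 ≤ p) (hp2 : p ≠ 2) :
    p * 2 ^ padicValNat 2 (p ^ 2 - 1) ∣ (X p).ncard := by
  have hp : p.Prime := Fact.out
  apply Nat.Coprime.mul_dvd_of_dvd_of_dvd _ (dvd_p hp5 hp2) (dvd_two hp5 hp2)
  apply Nat.Coprime.pow_right
  rw [Nat.coprime_primes hp Nat.prime_two]
  exact hp2

end Pool.Agent.H138.Cnt
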