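import Pool.Agent.H138.Cnt.Grp

/-!
# The number of Weyl–Heisenberg maximal equiangular tight frames in prime dimension

Let `p ≥ 5` be a prime.  The number of maximal equiangular tight frames of `ℂ^p` (as sets of `p²`
lines) which are orbits of the Weyl–Heisenberg group is finite and divisible by `p 2^k`, where `2^k`
is the largest power of two dividing `p² - 1`; in particular it is divisible by `8 p`.
-/

set_option autoImplicit false

namespace Pool.Agent.H138.Cnt.NumFrames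

open Finset ComplexConjugate

variable {p : ℕ} [Fact p.Prime]

/-- The displacement operator `D_(a,b)`: `(D_(a,b) ψ)(k) = exp(2 π i b k / p) ψ(k + a)`. -/
noncomputable def disp (g : ZMod p × ZMod p) (ψ : EuclideanSpace ℂ (ZMod p)) :
    EuclideanSpace ℂ (ZMod p) :=
  WithLp.toLp 2 (fun k => ZMod.stdAddChar (g.2 * k) * ψ (k + g.1))

/-- The orbit `(D_g ψ)_g` is a maximal equiangular tight frame: `p ^ 2` unit vectors with
`|⟨D_g ψ, D_h ψ⟩| = 1 / √(p + 1)` for `g ≠ h`. -/
def OrbitIsMaxETF (ψ : EuclideanSpace ℂ (ZMod p)) : Prop :=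
  (∀ g, ‖disp g ψ‖ = 1) ∧
    ∀ g h : ZMod p × ZMod p, g ≠ h → ‖inner ℂ (disp g ψ) (disp h ψ)‖ = 1 / √((p : ℝ) + 1)

/-- The set of the lines spanned by the vectors `D_g ψ`. -/
def lines (ψ : EuclideanSpace ℂ (ZMod p)) : Set (Submodule ℂ (EuclideanSpace ℂ (ZMod p))) :=
  Set.range (fun g => Submodule.span ℂ {disp g ψ})

variable (p) in
/-- The maximal equiangular tight frames of `ℂ^p` which are orbits of the Weyl–Heisenberg group, as
sets of lines. -/
def frames : Set (Set (Submodule ℂ (EuclideanSpace ℂ (ZMod p)))) :=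
  {S | ∃ ψ, OrbitIsMaxETF ψ ∧ S = lines ψ}

open Pool.Agent.H138.Cnt

theorem inner_disp (g : ZMod p × ZMod p) (ψ : EuclideanSpace ℂ (ZMod p)) :
    inner ℂ ψ (disp g ψ) = e (-(2⁻¹ * g.1 * g.2)) * F ψ g := by
  rw [F, ← mul_assoc, ← e_add, neg_add_cancel, e_zero, one_mul, PiLp.inner_apply]
  apply Finset.sum_congr rfl
  intro k _
  simp only [disp, RCLike.inner_apply]
  rw [e]
  ring

theorem disp_zero (ψ : EuclideanSpace ℂ (ZMod p)) : disp (0 : ZMod p × ZMod p) ψ = ψ := by
  ext k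
  simp [disp]

theorem disp_disp (g h : ZMod p × ZMod p) (ψ : EuclideanSpace ℂ (ZMod p)) :
    disp g (disp h ψ) = e (h.2 * g.1) • disp (g + h) ψ := by
  ext k
  simp only [disp, PiLp.smul_apply, smul_eq_mul, Prod.fst_add, Prod.snd_add]
  have e1 : k + g.1 + h.1 = k + (g.1 + h.1) := by ring
  have e2 : (ZMod.stdAddChar (g.2 * k) : ℂ) * ZMod.stdAddChar (h.2 * (k + g.1))
      = e (h.2 * g.1) * ZMod.stdAddChar ((g.2 + h.2) * k) := by
    rw [e, ← AddChar.map_add_eq_mul, ← AddChar.map_add_eq_mul]; congr 1; ring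
  rw [e1, ← mul_assoc, e2, mul_assoc]

theorem disp_smul (g : ZMod p × ZMod p) (c : ℂ) (ψ : EuclideanSpace ℂ (ZMod p)) :
    disp g (c • ψ) = c • disp g ψ := by
  ext k
  simp only [disp, PiLp.smul_apply, smul_eq_mul]
  ring

theorem inner_disp_disp (g h : ZMod p × ZMod p) (ψ : EuclideanSpace ℂ (ZMod p)) :
    ‖inner ℂ (disp g ψ) (disp h ψ)‖ = ‖inner ℂ ψ (disp (h - g) ψ)‖ := by
  have h1 : inner ℂ (disp g ψ) (disp h ψ)
      = e (-(h.2 - g.2) * g.1) * inner ℂ ψ (disp (h - g) ψ) := by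
    rw [PiLp.inner_apply, PiLp.inner_apply, Finset.mul_sum,
      ← Equiv.sum_comp (Equiv.addRight (-g.1))]
    apply Finset.sum_congr rfl
    intro k _
    simp only [disp, RCLike.inner_apply, Equiv.coe_addRight, map_mul]
    have e1 : k + -g.1 + h.1 = k + (h - g).1 := by rw [Prod.fst_sub]; ring
    have e2 : k + -g.1 + g.1 = k := by ring
    have e3 : (ZMod.stdAddChar (h.2 * (k + -g.1)) : ℂ) * conj (ZMod.stdAddChar (g.2 * (k + -g.1)))
        = e (-(h.2 - g.2) * g.1) * ZMod.stdAddChar ((h - g).2 * k) := by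
      rw [← AddChar.map_neg_eq_conj, e, ← AddChar.map_add_eq_mul, ← AddChar.map_add_eq_mul,
        Prod.snd_sub]
      congr 1; ring
    rw [e1, e2]
    linear_combination (ψ (k + (h - g).1) * conj (ψ k)) * e3
  rw [h1, norm_mul, e_norm, one_mul]

theorem norm_inner (g : ZMod p × ZMod p) (ψ : EuclideanSpace ℂ (ZMod p)) :
    ‖inner ℂ ψ (disp g ψ)‖ = ‖F ψ g‖ := by
  rw [inner_disp, norm_mul, e_norm, one_mul]

theorem norm_disp (g : ZMod p × ZMod p) (ψ : EuclideanSpace ℂ (ZMod p)) : ‖disp g ψ‖ = ‖ψ‖ := by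
  have h1 := inner_disp_disp g g ψ
  rw [sub_self, disp_zero, inner_self_eq_norm_sq_to_K, inner_self_eq_norm_sq_to_K] at h1
  simp only [norm_pow, RCLike.norm_ofReal, abs_norm] at h1
  exact (pow_left_inj₀ (norm_nonneg _) (norm_nonneg _) two_ne_zero).mp h1

theorem F_zero_eq (ψ : EuclideanSpace ℂ (ZMod p)) : F ψ 0 = ((‖ψ‖ ^ 2 : ℝ) : ℂ) := by
  have h1 := inner_disp 0 ψ
  rw [disp_zero, inner_self_eq_norm_sq_to_K] at h1
  have h2 : e (-(2⁻¹ * (0 : ZMod p × ZMod p).1 * (0 : ZMod p × ZMod p).2)) = 1 := by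
    simp [e_zero]
  rw [h2, one_mul] at h1
  rw [← h1]
  push_cast
  rfl

theorem etf_iff (ψ : EuclideanSpace ℂ (ZMod p)) : OrbitIsMaxETF ψ ↔ Fid (ψ : ZMod p → ℂ) := by
  constructor
  · intro h
    refine ⟨?_, fun v hv => ?_⟩
    · rw [F_zero_eq]
      have h1 := h.1 0
      rw [disp_zero] at h1
      rw [h1]
      simp
    · have h1 := h.2 0 v (Ne.symm hv)
      rw [disp_zero, norm_inner] at h1
      exact h1
  · intro h
    have h1 : ‖ψ‖ = 1 := by
      have h2 := h.1
      rw [F_zero_eq] at h2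
      have h3 : ‖ψ‖ ^ 2 = 1 := by exact_mod_cast h2
      exact (pow_eq_one_iff_of_nonneg (norm_nonneg _) two_ne_zero).mp h3
    refine ⟨fun g => by rw [norm_disp, h1], fun g k hgk => ?_⟩
    rw [inner_disp_disp, norm_inner]
    exact h.2 _ (sub_ne_zero.mpr (Ne.symm hgk))

theorem D_eq (g : ZMod p × ZMod p) (ψ : EuclideanSpace ℂ (ZMod p)) :
    (disp g ψ : ZMod p → ℂ) = D g ψ := rfl

theorem F_smul (c : ℂ) (hc : ‖c‖ = 1) (ψ : EuclideanSpace ℂ (ZMod p)) (v : ZMod p × ZMod p) :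
    F (c • ψ : EuclideanSpace ℂ (ZMod p)) v = F ψ v := by
  rw [F, F]
  congr 1
  apply Finset.sum_congr rfl
  intro x _
  simp only [PiLp.smul_apply, smul_eq_mul, map_mul]
  have h1 : conj c * c = 1 := by
    rw [mul_comm, Complex.mul_conj, Complex.normSq_eq_norm_sq, hc]
    norm_num
  linear_combination (conj (ψ x) * ψ (x + v.1) * e (v.2 * x)) * h1

/-- two fiducial vectors have the same orbit exactly if their triple products agree -/
theorem lines_iff (hp2 : p ≠ 2) {ψ ψ' : EuclideanSpace ℂ (ZMod p)} (h : OrbitIsMaxETF ψ)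
    (h' : OrbitIsMaxETF ψ') : lines ψ = lines ψ' ↔ T (F ψ) = T (F ψ') := by
  have h1 : ∀ ψ : EuclideanSpace ℂ (ZMod p), OrbitIsMaxETF ψ → ‖ψ‖ = 1 := by
    intro ψ h
    have := h.1 0
    rwa [disp_zero] at this
  constructor
  · intro hl
    have h2 : Submodule.span ℂ {ψ'} ∈ lines ψ := by
      rw [hl]
      exact ⟨0, by simp only [disp_zero]⟩
    obtain ⟨g, hg⟩ := h2
    replace hg : Submodule.span ℂ {disp g ψ} = Submodule.span ℂ {ψ'} := hg
    have h3 : ψ' ∈ Submodule.span ℂ {disp g ψ} := by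
      rw [hg]
      exact Submodule.mem_span_singleton_self _
    obtain ⟨c, hc⟩ := Submodule.mem_span_singleton.mp h3
    have hc1 : ‖c‖ = 1 := by
      have h4 := h1 ψ' h'
      rw [← hc, norm_smul, norm_disp, h1 ψ h, mul_one] at h4
      exact h4
    have h5 : F ψ' = F (D g ψ) := by
      funext v
      rw [← hc, F_smul c hc1, D_eq]
    rw [h5, T_D hp2]
  · intro hT
    obtain ⟨k, hk⟩ := T_eq ((etf_iff ψ).mp h) ((etf_iff ψ').mp h') hT
    have h2 : F ψ' = F (D k ψ) := by
      funext v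
      rw [hk, F_D hp2]
    have h3 := F_inj hp2 h2
    -- the two vectors are proportional
    obtain ⟨x0, hx0⟩ : ∃ x, ψ' x ≠ 0 := by
      by_contra hall
      push Not at hall
      have h4 := h1 ψ' h'
      have : ψ' = 0 := by ext x; exact hall x
      rw [this, norm_zero] at h4
      exact zero_ne_one h4
    obtain ⟨c, hc0, hc⟩ : ∃ c : ℂ, c ≠ 0 ∧ ψ' = c • disp k ψ := by
      have hD0 : D k ψ x0 ≠ 0 := by
        intro h0
        have h4 := h3 x0 x0
        rw [h0, mul_zero] at h4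
        exact hx0 ((mul_eq_zero.mp h4).resolve_left
          (fun h5 => hx0 ((map_eq_zero _).mp h5)))
      refine ⟨conj (D k ψ x0) / conj (ψ' x0), div_ne_zero ((map_ne_zero _).mpr hD0)
        ((map_ne_zero _).mpr hx0), ?_⟩
      ext y
      have h4 := h3 x0 y
      have h5 : conj (ψ' x0) ≠ 0 := (map_ne_zero _).mpr hx0
      show ψ' y = conj (D k ψ x0) / conj (ψ' x0) * D k ψ y
      field_simp
      linear_combination h4
    have h4 : ∀ g, Submodule.span ℂ {disp g ψ'} = Submodule.span ℂ {disp (g + k) ψ} := by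
      intro g
      rw [hc, disp_smul, disp_disp, smul_smul]
      exact Submodule.span_singleton_smul_eq
        (IsUnit.mk0 _ (mul_ne_zero hc0 (e_ne _))) _
    ext L
    constructor
    · rintro ⟨g, rfl⟩
      refine ⟨g - k, ?_⟩
      simp only [h4, sub_add_cancel]
    · rintro ⟨g, rfl⟩
      refine ⟨g + k, ?_⟩
      simp only [h4]

/-- Let `p ≥ 5` be a prime.  There are only finitely many maximal equiangular tight frames of `ℂ^p`
which are orbits of the Weyl–Heisenberg group, and their number is divisible by `p 2^k`, where `2^k`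
is the largest power of two dividing `p² - 1`. -/
theorem main (p : ℕ) [Fact p.Prime] (hp5 : 5 ≤ p) :
    (frames p).Finite ∧ p * 2 ^ padicValNat 2 (p ^ 2 - 1) ∣ (frames p).ncard := by
  have hp2 : p ≠ 2 := by omega
  -- a bijection with the triple product functions
  have hex : ∀ S ∈ frames p, ∃ ψ, OrbitIsMaxETF ψ ∧ S = lines ψ := fun S hS => hS
  choose! φ hφ1 hφ2 using hex
  have hbij : Set.BijOn (fun S => T (F (φ S))) (frames p) (X p) := by
    refine ⟨?_, ?_, ?_⟩
    · intro S hS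
      exact ⟨φ S, (etf_iff _).mp (hφ1 S hS), rfl⟩
    · intro S hS S' hS' h
      rw [hφ2 S hS, hφ2 S' hS']
      exact (lines_iff hp2 (hφ1 S hS) (hφ1 S' hS')).mpr h
    · rintro t ⟨ψ, hψ, rfl⟩
      have h1 : OrbitIsMaxETF (WithLp.toLp 2 ψ) := (etf_iff _).mpr hψ
      have h2 : lines (WithLp.toLp 2 ψ) ∈ frames p := ⟨_, h1, rfl⟩
      refine ⟨_, h2, ?_⟩
      exact (lines_iff hp2 (hφ1 _ h2) h1).mp (hφ2 _ h2).symm
  have hX := X_finite hp5
  have hfin : (frames p).Finite := by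
    rw [← hbij.image_eq] at hX
    exact Set.Finite.of_finite_image hX hbij.injOn
  refine ⟨hfin, ?_⟩
  have h1 : (frames p).ncard = (X p).ncard := by
    rw [← hbij.image_eq, hbij.injOn.ncard_image]
  rw [h1]
  exact X_dvd hp5 hp2

end Pool.Agent.H138.Cnt.NumFrames
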