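import Mathlib

/-!
# The symmetric overlap function of a vector in odd prime dimension and its symmetries
-/

set_option autoImplicit false

namespace Pool.Agent.H138.Cnt

open Finset ComplexConjugate

variable {p : ℕ} [Fact p.Prime]

/-- the standard character of `ℤ/p` -/
noncomputable def e (t : ZMod p) : ℂ := ZMod.stdAddChar t

theorem e_add (s t : ZMod p) : e (s + t) = e s * e t := AddChar.map_add_eq_mul _ _ _

theorem e_zero : e (0 : ZMod p) = 1 := AddChar.map_zero_eq_one _

theorem e_conj (t : ZMod p) : conj (e t) = e (-t) := by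
  rw [e, e, AddChar.map_neg_eq_conj]

theorem e_ne (t : ZMod p) : e t ≠ 0 := by
  intro h
  have h1 := e_add t (-t)
  rw [add_neg_cancel, e_zero, h, zero_mul] at h1
  exact one_ne_zero h1

theorem e_inj {s t : ZMod p} (h : e s = e t) : s = t := ZMod.injective_stdAddChar h

theorem e_norm (t : ZMod p) : ‖e t‖ = 1 := by
  rw [e]; exact AddChar.norm_apply _ _

theorem e_pow (t : ZMod p) : e t ^ p = 1 := by
  rw [e, ← AddChar.map_nsmul_eq_pow]
  have : p • t = 0 := by simp
  rw [this, AddChar.map_zero_eq_one]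

theorem sum_e (a : ZMod p) : ∑ x : ZMod p, e (x * a) = if a = 0 then (p : ℂ) else 0 := by
  have := AddChar.sum_mulShift a (ZMod.isPrimitive_stdAddChar p)
  simp only [e]
  rw [this, ZMod.card]
  split_ifs <;> simp

theorem two_ne (hp2 : p ≠ 2) : (2 : ZMod p) ≠ 0 := by
  intro h
  have h1 : ((2 : ℕ) : ZMod p) = 0 := by exact_mod_cast h
  rw [ZMod.natCast_eq_zero_iff] at h1
  exact hp2 ((Nat.prime_dvd_prime_iff_eq Fact.out Nat.prime_two).mp h1)

theorem p_ne : (p : ℂ) ≠ 0 := by
  have hp : p.Prime := Fact.out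
  exact_mod_cast hp.ne_zero

/-- the symmetric overlap function -/
noncomputable def F (ψ : ZMod p → ℂ) (v : ZMod p × ZMod p) : ℂ :=
  e (2⁻¹ * v.1 * v.2) * ∑ x, conj (ψ x) * ψ (x + v.1) * e (v.2 * x)

/-- the displacement operators -/
noncomputable def D (h : ZMod p × ZMod p) (ψ : ZMod p → ℂ) : ZMod p → ℂ :=
  fun x => e (h.2 * x) * ψ (x + h.1)

/-- the symplectic form, as a character -/
noncomputable def br (h v : ZMod p × ZMod p) : ℂ := e (h.2 * v.1 - h.1 * v.2)

theorem F_zero (ψ : ZMod p → ℂ) : F ψ 0 = ∑ x, conj (ψ x) * ψ x := by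
  rw [F]
  simp [e_zero]

section odd

variable (hp2 : p ≠ 2)

include hp2

theorem F_neg (ψ : ZMod p → ℂ) (v : ZMod p × ZMod p) : F ψ (-v) = conj (F ψ v) := by
  have h2 := two_ne hp2
  rw [F, F, map_mul, map_sum, e_conj, ← Equiv.sum_comp (Equiv.addRight v.1), Finset.mul_sum,
    Finset.mul_sum]
  apply Finset.sum_congr rfl
  intro x _
  simp only [Equiv.coe_addRight, map_mul, e_conj, Complex.conj_conj, Prod.fst_neg, Prod.snd_neg,
    add_neg_cancel_right]
  have h1 : e (2⁻¹ * -v.1 * -v.2) * e (-v.2 * (x + v.1))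
      = e (-(2⁻¹ * v.1 * v.2)) * e (-(v.2 * x)) := by
    rw [← e_add, ← e_add]
    congr 1
    field_simp
    ring
  linear_combination (conj (ψ (x + v.1)) * ψ x) * h1

/-- displacements multiply the overlap function by a character -/
theorem F_D (h v : ZMod p × ZMod p) (ψ : ZMod p → ℂ) : F (D h ψ) v = br h v * F ψ v := by
  have h2 := two_ne hp2
  rw [F, F, br, ← Equiv.sum_comp (Equiv.addRight (-h.1)), Finset.mul_sum, Finset.mul_sum,
    Finset.mul_sum]
  apply Finset.sum_congr rfl
  intro x _
  simp only [D, Equiv.coe_addRight, map_mul, e_conj]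
  have e1 : x + -h.1 + h.1 = x := by ring
  have e2 : x + -h.1 + v.1 + h.1 = x + v.1 := by ring
  rw [e1, e2]
  have h1 : e (2⁻¹ * v.1 * v.2) * (e (-(h.2 * (x + -h.1))) * e (h.2 * (x + -h.1 + v.1)) *
      e (v.2 * (x + -h.1))) = e (h.2 * v.1 - h.1 * v.2) * (e (2⁻¹ * v.1 * v.2) * e (v.2 * x)) := by
    rw [← e_add, ← e_add, ← e_add, ← e_add, ← e_add]
    congr 1
    ring
  linear_combination (conj (ψ x) * ψ (x + v.1)) * h1

/-- chirps shear the overlap function -/
theorem F_chirp (s : ZMod p) (ψ : ZMod p → ℂ) (v : ZMod p × ZMod p) :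
    F (fun x => e (2⁻¹ * s * x ^ 2) * ψ x) v = F ψ (v.1, s * v.1 + v.2) := by
  have h2 := two_ne hp2
  rw [F, F, Finset.mul_sum, Finset.mul_sum]
  apply Finset.sum_congr rfl
  intro x _
  simp only [map_mul, e_conj]
  have h1 : e (2⁻¹ * v.1 * v.2) * (e (-(2⁻¹ * s * x ^ 2)) * e (2⁻¹ * s * (x + v.1) ^ 2) *
      e (v.2 * x)) = e (2⁻¹ * v.1 * (s * v.1 + v.2)) * e ((s * v.1 + v.2) * x) := by
    rw [← e_add, ← e_add, ← e_add, ← e_add]
    congr 1
    field_simp
    ring
  linear_combination (conj (ψ x) * ψ (x + v.1)) * h1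

/-- the parity operator -/
theorem F_par (ψ : ZMod p → ℂ) (v : ZMod p × ZMod p) : F (fun x => ψ (-x)) v = F ψ (-v) := by
  have h2 := two_ne hp2
  rw [F, F, ← Equiv.sum_comp (Equiv.neg (ZMod p))]
  simp only [Equiv.neg_apply, neg_neg, Prod.fst_neg, Prod.snd_neg]
  have e1 : (2⁻¹ : ZMod p) * v.1 * v.2 = 2⁻¹ * -v.1 * -v.2 := by ring
  rw [e1]
  congr 1
  apply Finset.sum_congr rfl
  intro x _
  have e2 : -(-x + v.1) = x + -v.1 := by ring
  have e3 : v.2 * -x = -v.2 * x := by ring
  rw [e2, e3]

/-- the Fourier transform rotates the overlap function -/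
theorem F_four (ψ : ZMod p → ℂ) (v : ZMod p × ZMod p) :
    F (fun y => ((√(p : ℝ) : ℝ) : ℂ)⁻¹ * ∑ x, ψ x * e (x * y)) v = F ψ (-v.2, v.1) := by
  have h2 := two_ne hp2
  obtain ⟨a, b⟩ := v
  simp only [F]
  have hs : ((√(p : ℝ) : ℝ) : ℂ)⁻¹ * ((√(p : ℝ) : ℝ) : ℂ)⁻¹ = (p : ℂ)⁻¹ := by
    rw [← mul_inv, ← Complex.ofReal_mul, Real.mul_self_sqrt (by positivity), Complex.ofReal_natCast]
  have key : ∑ y, conj (((√(p : ℝ) : ℝ) : ℂ)⁻¹ * ∑ x, ψ x * e (x * y)) *
      (((√(p : ℝ) : ℝ) : ℂ)⁻¹ * ∑ x, ψ x * e (x * (y + a))) * e (b * y)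
      = ∑ x, conj (ψ x) * ψ (x + -b) * e ((x + -b) * a) := by
    calc _ = ∑ y, ∑ x, ∑ x', ((p : ℂ)⁻¹ * (conj (ψ x) * ψ x' * e (x' * a))) *
          e (y * (x' - x + b)) := by
          apply Finset.sum_congr rfl
          intro y _
          rw [map_mul, map_sum, map_inv₀, Complex.conj_ofReal]
          have : ((√(p : ℝ) : ℝ) : ℂ)⁻¹ * (∑ x, conj (ψ x * e (x * y))) *
              (((√(p : ℝ) : ℝ) : ℂ)⁻¹ * ∑ x, ψ x * e (x * (y + a))) * e (b * y)
              = (p : ℂ)⁻¹ * e (b * y) * ((∑ x, conj (ψ x * e (x * y))) *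
                ∑ x, ψ x * e (x * (y + a))) := by
            rw [← hs]; ring
          rw [this, Finset.sum_mul_sum, Finset.mul_sum]
          apply Finset.sum_congr rfl
          intro x _
          rw [Finset.mul_sum]
          apply Finset.sum_congr rfl
          intro x' _
          rw [map_mul, e_conj]
          have h1 : e (b * y) * (e (-(x * y)) * e (x' * (y + a)))
              = e (x' * a) * e (y * (x' - x + b)) := by
            rw [← e_add, ← e_add, ← e_add]
            congr 1
            ring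
          linear_combination ((p : ℂ)⁻¹ * (conj (ψ x) * ψ x')) * h1
      _ = ∑ x, ∑ x', ((p : ℂ)⁻¹ * (conj (ψ x) * ψ x' * e (x' * a))) *
          ∑ y, e (y * (x' - x + b)) := by
          rw [Finset.sum_comm]
          apply Finset.sum_congr rfl
          intro x _
          rw [Finset.sum_comm]
          apply Finset.sum_congr rfl
          intro x' _
          rw [Finset.mul_sum]
      _ = _ := by
          apply Finset.sum_congr rfl
          intro x _
          rw [Finset.sum_eq_single (x + -b)]
          · rw [sum_e, if_pos (by ring)]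
            have := p_ne (p := p)
            field_simp
          · intro x' _ hx'
            rw [sum_e, if_neg, mul_zero]
            intro h
            apply hx'
            linear_combination h
          · intro h; exact absurd (mem_univ _) h
  rw [key, Finset.mul_sum, Finset.mul_sum]
  apply Finset.sum_congr rfl
  intro x _
  have h1 : e (2⁻¹ * a * b) * e ((x + -b) * a) = e (2⁻¹ * -b * a) * e (a * x) := by
    rw [← e_add, ← e_add]
    congr 1
    field_simp
    ring
  linear_combination (conj (ψ x) * ψ (x + -b)) * h1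

/-- the overlap function determines the projection -/
theorem recover (ψ : ZMod p → ℂ) (x a : ZMod p) :
    ∑ b, e (-(b * (x + 2⁻¹ * a))) * F ψ (a, b) = (p : ℂ) * (conj (ψ x) * ψ (x + a)) := by
  have h2 := two_ne hp2
  calc _ = ∑ b, ∑ y, (conj (ψ y) * ψ (y + a)) * e (b * (y - x)) := by
        apply Finset.sum_congr rfl
        intro b _
        rw [F, Finset.mul_sum, Finset.mul_sum]
        apply Finset.sum_congr rfl
        intro y _
        have h1 : e (-(b * (x + 2⁻¹ * a))) * (e (2⁻¹ * a * b) * e (b * y)) = e (b * (y - x)) := by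
          rw [← e_add, ← e_add]
          congr 1
          ring
        linear_combination (conj (ψ y) * ψ (y + a)) * h1
    _ = ∑ y, (conj (ψ y) * ψ (y + a)) * ∑ b, e (b * (y - x)) := by
        rw [Finset.sum_comm]
        apply Finset.sum_congr rfl
        intro y _
        rw [Finset.mul_sum]
    _ = _ := by
        rw [Finset.sum_eq_single x]
        · rw [sum_e, if_pos (sub_self x)]
          ring
        · intro y _ hy
          rw [sum_e, if_neg (sub_ne_zero.mpr hy), mul_zero]
        · intro h; exact absurd (mem_univ _) h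

theorem F_inj {ψ ψ' : ZMod p → ℂ} (h : F ψ = F ψ') (x y : ZMod p) :
    conj (ψ x) * ψ y = conj (ψ' x) * ψ' y := by
  have h1 := recover hp2 ψ x (y - x)
  have h2 := recover hp2 ψ' x (y - x)
  rw [h, h2] at h1
  have h3 := mul_left_cancel₀ p_ne h1
  rw [add_sub_cancel] at h3
  exact h3.symm

/-- the sum of the overlaps is the expectation of the parity operator -/
theorem sum_F (ψ : ZMod p → ℂ) : ∑ v, F ψ v = (p : ℂ) * ∑ x, conj (ψ x) * ψ (-x) := by
  have h2 := two_ne hp2
  rw [Fintype.sum_prod_type]
  calc _ = ∑ a, ∑ y, (conj (ψ y) * ψ (y + a)) * ∑ b, e (b * (2⁻¹ * a + y)) := by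
        apply Finset.sum_congr rfl
        intro a _
        simp only [F, Finset.mul_sum]
        rw [Finset.sum_comm]
        apply Finset.sum_congr rfl
        intro y _
        apply Finset.sum_congr rfl
        intro b _
        have h1 : e (2⁻¹ * a * b) * e (b * y) = e (b * (2⁻¹ * a + y)) := by
          rw [← e_add]
          congr 1
          ring
        linear_combination (conj (ψ y) * ψ (y + a)) * h1
    _ = _ := by
        rw [Finset.sum_comm, Finset.mul_sum]
        apply Finset.sum_congr rfl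
        intro y _
        rw [Finset.sum_eq_single (-(2 * y))]
        · rw [sum_e, if_pos (by field_simp; ring)]
          have : y + -(2 * y) = -y := by ring
          rw [this]
          ring
        · intro a _ ha
          rw [sum_e, if_neg, mul_zero]
          intro h
          apply ha
          have h3 : 2 * (2⁻¹ * a + y) = a + 2 * y := by field_simp
          rw [h, mul_zero] at h3
          linear_combination -h3
        · intro h; exact absurd (mem_univ _) h

end odd

end Pool.Agent.H138.Cnt
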