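import Pool.Agent.H138.Cnt.Grp

/-!
# Subgroups of `SL(2, p)` without transvections and involutions
-/

set_option autoImplicit false

namespace Pool.Agent.H138.Cnt

open Finset

variable {p : ℕ} [Fact p.Prime]

/-- the matrix of an element -/
theorem act_eq_iff {M N : SL p} : (∀ v, act M v = act N v) ↔ M = N := by
  constructor
  · intro h
    have h1 := h (1, 0)
    have h2 := h (0, 1)
    simp only [act, mul_one, mul_zero, add_zero, zero_add, Prod.mk.injEq] at h1 h2
    ext i j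
    fin_cases i <;> fin_cases j
    · exact h1.1
    · exact h2.1
    · exact h1.2
    · exact h2.2
  · rintro rfl v
    rfl

/-- an element of trace two is one or fixes a nonzero vector -/
theorem exists_fixed {M : SL p} (h : M.1.trace = 2) : ∃ v, v ≠ 0 ∧ act M v = v := by
  have hdet : M.1 0 0 * M.1 1 1 - M.1 0 1 * M.1 1 0 = 1 := by
    have := M.2
    rwa [Matrix.det_fin_two] at this
  rw [Matrix.trace_fin_two] at h
  by_cases h1 : M.1 0 1 = 0 ∧ M.1 0 0 = 1
  · refine ⟨(0, 1), fun h0 => one_ne_zero (congrArg Prod.snd h0), ?_⟩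
    ext
    · show M.1 0 0 * 0 + M.1 0 1 * 1 = 0
      rw [h1.1]; ring
    · show M.1 1 0 * 0 + M.1 1 1 * 1 = 1
      have : M.1 1 1 = 1 := by linear_combination h - h1.2
      rw [this]; ring
  · refine ⟨(M.1 0 1, 1 - M.1 0 0), fun h0 => h1 ⟨congrArg Prod.fst h0, ?_⟩, ?_⟩
    · have := congrArg Prod.snd h0
      simp only [Prod.snd_zero] at this
      linear_combination -this
    · ext
      · show M.1 0 0 * M.1 0 1 + M.1 0 1 * (1 - M.1 0 0) = M.1 0 1
        ring
      · show M.1 1 0 * M.1 0 1 + M.1 1 1 * (1 - M.1 0 0) = 1 - M.1 0 0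
        linear_combination h - hdet

/-- a matrix fixing a nonzero vector has trace two -/
theorem trace_of_fixed {M : SL p} {v : ZMod p × ZMod p} (hv : v ≠ 0) (h : act M v = v) :
    M.1.trace = 2 := by
  have hdet : M.1 0 0 * M.1 1 1 - M.1 0 1 * M.1 1 0 = 1 := by
    have := M.2
    rwa [Matrix.det_fin_two] at this
  have e1 : M.1 0 0 * v.1 + M.1 0 1 * v.2 = v.1 := congrArg Prod.fst h
  have e2 : M.1 1 0 * v.1 + M.1 1 1 * v.2 = v.2 := congrArg Prod.snd h
  rw [Matrix.trace_fin_two]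
  by_cases h1 : v.1 = 0
  · have h2 : v.2 ≠ 0 := fun h2 => hv (Prod.ext h1 h2)
    apply mul_right_cancel₀ h2
    rw [h1] at e1 e2
    linear_combination (-M.1 0 0 + 1) * e2 + M.1 1 0 * e1 + v.2 * hdet
  · apply mul_right_cancel₀ h1
    linear_combination (-M.1 1 1 + 1) * e1 + M.1 0 1 * e2 + v.1 * hdet

variable (S : Subgroup (SL p)) (hfix : ∀ M ∈ S, ∀ v, v ≠ 0 → act M v = v → M = 1)

include hfix in
/-- the order divides `p ^ 2 - 1` -/
theorem card_dvd_of_free : Nat.card S ∣ p ^ 2 - 1 := by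
  let _ : MulAction S {v : ZMod p × ZMod p // v ≠ 0} :=
    { smul := fun M v => ⟨act (M : SL p) v.1, fun h => v.2 (act_inj (M : SL p) (by
        rw [act_zero]; exact h))⟩
      one_smul := fun v => Subtype.ext (act_one v.1)
      mul_smul := fun M N v => Subtype.ext (act_mul (M : SL p) (N : SL p) v.1) }
  have hst : ∀ v : {v : ZMod p × ZMod p // v ≠ 0}, MulAction.stabilizer S v = ⊥ := by
    intro v
    rw [eq_bot_iff]
    intro M hM
    rw [MulAction.mem_stabilizer_iff] at hM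
    have h1 : act (M : SL p) v.1 = v.1 := congrArg Subtype.val hM
    rw [Subgroup.mem_bot]
    exact Subtype.ext (hfix _ M.2 v.1 v.2 h1)
  have h1 := Nat.card_congr (MulAction.selfEquivOrbitsQuotientProd hst)
  rw [Nat.card_prod] at h1
  have h2 : Nat.card {v : ZMod p × ZMod p // v ≠ 0} = p ^ 2 - 1 := by
    have h3 : ({0}ᶜ : Set (ZMod p × ZMod p)).ncard = p ^ 2 - 1 := by
      rw [Set.ncard_compl, Set.ncard_singleton, Nat.card_prod, Nat.card_zmod, sq]
    rw [← h3]
    rfl
  rw [h2] at h1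
  exact ⟨_, h1.trans (mul_comm _ _)⟩

include hfix in
theorem card_ne_zero_of_free : (Nat.card S : ZMod p) ≠ 0 := by
  have hp : p.Prime := Fact.out
  have h1 := card_dvd_of_free S hfix
  intro h
  rw [ZMod.natCast_eq_zero_iff] at h
  have h2 := h.trans h1
  have h3 : p ∣ p ^ 2 := dvd_pow_self p two_ne_zero
  have h4 : 1 ≤ p ^ 2 := Nat.one_le_pow _ _ hp.pos
  have h5 : p ∣ 1 := by
    have := (Nat.dvd_sub h3 h2)
    rwa [Nat.sub_sub_self h4] at this
  exact hp.one_lt.ne' (Nat.dvd_one.mp h5)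

/-- the sum of a family of matrices over the subgroup -/
theorem tr_sq (M : SL p) : M.1.trace ^ 2 = (M ^ 2).1.trace + 2 := by
  have hdet : M.1 0 0 * M.1 1 1 - M.1 0 1 * M.1 1 0 = 1 := by
    have := M.2
    rwa [Matrix.det_fin_two] at this
  rw [sq M, Matrix.SpecialLinearGroup.coe_mul, Matrix.trace_fin_two, Matrix.trace_fin_two,
    Matrix.mul_apply, Matrix.mul_apply, Fin.sum_univ_two, Fin.sum_univ_two]
  linear_combination 2 * hdet

theorem tr_inv (M : SL p) : (M⁻¹).1.trace = M.1.trace := by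
  rw [Matrix.SpecialLinearGroup.coe_inv, Matrix.adjugate_fin_two, Matrix.trace_fin_two,
    Matrix.trace_fin_two]
  simp [add_comm]

variable (hodd : Odd (Nat.card S))

/-- sums of products of entries -/
noncomputable def ZZ [Fintype S] (i j k l : Fin 2) : ZMod p :=
  ∑ h : S, (h : SL p).1 k i * ((h : SL p)⁻¹).1 j l

include hfix in
theorem sum_trace_zero [Fintype S] (hS : ∃ M ∈ S, M ≠ 1) :
    ∑ h : S, (h : SL p).1.trace = 0 := by
  obtain ⟨M, hM, hM1⟩ := hS
  have hcol : ∀ j : Fin 2, act M (∑ h : S, (h : SL p).1 0 j, ∑ h : S, (h : SL p).1 1 j)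
      = (∑ h : S, (h : SL p).1 0 j, ∑ h : S, (h : SL p).1 1 j) := by
    intro j
    ext
    · show M.1 0 0 * (∑ h : S, (h : SL p).1 0 j) + M.1 0 1 * (∑ h : S, (h : SL p).1 1 j)
        = ∑ h : S, (h : SL p).1 0 j
      conv_rhs => rw [← Equiv.sum_comp (Equiv.mulLeft (⟨M, hM⟩ : S))
        (fun h : S => (h : SL p).1 0 j)]
      rw [Finset.mul_sum, Finset.mul_sum, ← Finset.sum_add_distrib]
      apply Finset.sum_congr rfl
      intro h _
      simp only [Equiv.coe_mulLeft, Subgroup.coe_mul, Matrix.SpecialLinearGroup.coe_mul]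
      rw [Matrix.mul_apply, Fin.sum_univ_two]
    · show M.1 1 0 * (∑ h : S, (h : SL p).1 0 j) + M.1 1 1 * (∑ h : S, (h : SL p).1 1 j)
        = ∑ h : S, (h : SL p).1 1 j
      conv_rhs => rw [← Equiv.sum_comp (Equiv.mulLeft (⟨M, hM⟩ : S))
        (fun h : S => (h : SL p).1 1 j)]
      rw [Finset.mul_sum, Finset.mul_sum, ← Finset.sum_add_distrib]
      apply Finset.sum_congr rfl
      intro h _
      simp only [Equiv.coe_mulLeft, Subgroup.coe_mul, Matrix.SpecialLinearGroup.coe_mul]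
      rw [Matrix.mul_apply, Fin.sum_univ_two]
  have hzero : ∀ j : Fin 2,
      ((∑ h : S, (h : SL p).1 0 j, ∑ h : S, (h : SL p).1 1 j) : ZMod p × ZMod p) = 0 := by
    intro j
    by_contra h0
    exact hM1 (hfix M hM _ h0 (hcol j))
  have h0 : ∑ h : S, (h : SL p).1 0 0 = 0 := congrArg Prod.fst (hzero 0)
  have h1 : ∑ h : S, (h : SL p).1 1 1 = 0 := congrArg Prod.snd (hzero 1)
  simp only [Matrix.trace_fin_two]
  rw [Finset.sum_add_distrib, h0, h1, add_zero]

include hfix hodd in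
open Classical in
/-- some matrix commuting with the subgroup is not scalar -/
theorem exists_comm (hp2 : p ≠ 2) (hS : ∃ M ∈ S, M ≠ 1) :
    ∃ Y : Matrix (Fin 2) (Fin 2) (ZMod p),
    (∀ M ∈ S, M.1 * Y = Y * M.1) ∧ ¬ (Y 0 1 = 0 ∧ Y 1 0 = 0 ∧ Y 0 0 = Y 1 1) := by
  have h2 := two_ne hp2
  have hcard := card_ne_zero_of_free S hfix
  by_contra hcon
  push Not at hcon
  -- averages
  have hY : ∀ X : Matrix (Fin 2) (Fin 2) (ZMod p), ∀ M ∈ S,
      M.1 * (∑ h : S, (h : SL p).1 * X * ((h : SL p)⁻¹).1)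
        = (∑ h : S, (h : SL p).1 * X * ((h : SL p)⁻¹).1) * M.1 := by
    intro X M hM
    rw [Finset.mul_sum, Finset.sum_mul]
    rw [← Equiv.sum_comp (Equiv.mulLeft (⟨M, hM⟩ : S)) (fun h : S =>
      (h : SL p).1 * X * ((h : SL p)⁻¹).1 * M.1)]
    apply Finset.sum_congr rfl
    intro h _
    simp only [Equiv.coe_mulLeft, Subgroup.coe_mul, mul_inv_rev, Matrix.SpecialLinearGroup.coe_mul]
    have h1 : (M⁻¹).1 * M.1 = 1 := by
      rw [← Matrix.SpecialLinearGroup.coe_mul, inv_mul_cancel, Matrix.SpecialLinearGroup.coe_one]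
    calc M.1 * ((h : SL p).1 * X * ((h : SL p)⁻¹).1)
        = M.1 * (h : SL p).1 * X * ((h : SL p)⁻¹).1 * 1 := by
          simp only [Matrix.mul_assoc, Matrix.mul_one]
      _ = _ := by
          rw [← h1]
          simp only [Matrix.mul_assoc]
  have hsc := fun X => hcon _ (hY X)
  -- entries
  have hent : ∀ (i j k l : Fin 2), (∑ h : S, (h : SL p).1 * (Matrix.single i j (1 : ZMod p)) *
      ((h : SL p)⁻¹).1) k l = ZZ S i j k l := by
    intro i j k l
    rw [Matrix.sum_apply, ZZ]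
    apply Finset.sum_congr rfl
    intro h _
    rw [Matrix.mul_apply, Fin.sum_univ_two, Matrix.mul_apply, Matrix.mul_apply, Fin.sum_univ_two,
      Fin.sum_univ_two]
    fin_cases i <;> fin_cases j <;> simp
  have hZ : ∀ i j : Fin 2, ZZ S i j 0 1 = 0 ∧ ZZ S i j 1 0 = 0 ∧ ZZ S i j 0 0 = ZZ S i j 1 1 := by
    intro i j
    have h1 := hsc (Matrix.single i j 1)
    rw [hent, hent, hent, hent] at h1
    exact h1
  have htr : ∀ i : Fin 2, ZZ S i i 0 0 + ZZ S i i 1 1 = (Nat.card S : ZMod p) := by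
    intro i
    rw [ZZ, ZZ, ← Finset.sum_add_distrib]
    have h3 : ∀ h : S, (h : SL p).1 0 i * ((h : SL p)⁻¹).1 i 0
        + (h : SL p).1 1 i * ((h : SL p)⁻¹).1 i 1 = 1 := by
      intro h
      have h4 : ((h : SL p)⁻¹).1 * (h : SL p).1 = 1 := by
        rw [← Matrix.SpecialLinearGroup.coe_mul, inv_mul_cancel,
          Matrix.SpecialLinearGroup.coe_one]
      have h5 := congrFun (congrFun h4 i) i
      rw [Matrix.mul_apply, Fin.sum_univ_two, Matrix.one_apply_eq] at h5
      linear_combination h5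
    rw [Finset.sum_congr rfl (fun h _ => h3 h), Finset.sum_const, Finset.card_univ,
      nsmul_eq_mul, mul_one, Nat.card_eq_fintype_card]
  have hsum1 : ∑ h : S, (h : SL p).1.trace * ((h : SL p)⁻¹).1.trace
      = ZZ S 0 0 0 0 + ZZ S 1 1 1 1 + ZZ S 0 1 0 1 + ZZ S 1 0 1 0 := by
    rw [ZZ, ZZ, ZZ, ZZ, ← Finset.sum_add_distrib, ← Finset.sum_add_distrib,
      ← Finset.sum_add_distrib]
    apply Finset.sum_congr rfl
    intro h _
    rw [Matrix.trace_fin_two, Matrix.trace_fin_two]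
    ring
  have hsum2 : ∑ h : S, (h : SL p).1.trace * ((h : SL p)⁻¹).1.trace
      = 2 * (Nat.card S : ZMod p) := by
    have hcop : (Nat.card S).Coprime 2 := Nat.Coprime.symm (Nat.coprime_two_left.mpr hodd)
    calc ∑ h : S, (h : SL p).1.trace * ((h : SL p)⁻¹).1.trace
        = ∑ h : S, ((h ^ 2 : S) : SL p).1.trace + ∑ h : S, (2 : ZMod p) := by
          rw [← Finset.sum_add_distrib]
          apply Finset.sum_congr rfl
          intro h _
          rw [tr_inv, ← sq, tr_sq]
          rfl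
      _ = ∑ h : S, (h : SL p).1.trace + ∑ h : S, (2 : ZMod p) := by
          congr 1
          exact Equiv.sum_comp (powCoprime hcop) (fun h : S => (h : SL p).1.trace)
      _ = _ := by
          rw [sum_trace_zero S hfix hS, zero_add, Finset.sum_const, Finset.card_univ,
            nsmul_eq_mul, Nat.card_eq_fintype_card, mul_comm]
  rw [hsum1, (hZ 0 1).1, (hZ 1 0).2.1] at hsum2
  have e0 := htr 0
  have e1 := htr 1
  rw [← (hZ 0 0).2.2] at e0
  rw [(hZ 1 1).2.2] at e1
  apply hcard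
  have h3 : (2 : ZMod p) * (Nat.card S : ZMod p) = 0 := by
    linear_combination -2 * hsum2 + e0 + e1
  exact (mul_eq_zero.mp h3).resolve_left h2

/-- a matrix commuting with a matrix `Y` which is not scalar is proportional to `Y` modulo
scalars -/
theorem exists_t {K : Type*} [Field K] {Y A : Matrix (Fin 2) (Fin 2) K}
    (hY : ¬ (Y 0 1 = 0 ∧ Y 1 0 = 0 ∧ Y 0 0 = Y 1 1)) (hA : A * Y = Y * A) :
    ∃ t : K, A 0 1 = t * Y 0 1 ∧ A 1 0 = t * Y 1 0 ∧
      A 0 0 - A 1 1 = t * (Y 0 0 - Y 1 1) := by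
  have a00 := congrFun (congrFun hA 0) 0
  have a01 := congrFun (congrFun hA 0) 1
  have a10 := congrFun (congrFun hA 1) 0
  simp only [Matrix.mul_apply, Fin.sum_univ_two] at a00 a01 a10
  by_cases h1 : Y 0 1 = 0
  · by_cases h2 : Y 1 0 = 0
    · have h3 : Y 0 0 - Y 1 1 ≠ 0 := fun h => hY ⟨h1, h2, sub_eq_zero.mp h⟩
      refine ⟨(A 0 0 - A 1 1) / (Y 0 0 - Y 1 1), ?_, ?_, ?_⟩
      · rw [h1] at a01 ⊢
        apply (mul_eq_zero.mp (_ : A 0 1 * (Y 0 0 - Y 1 1) = 0)).resolve_right h3 |>.trans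
        · ring
        · linear_combination -a01
      · rw [h2] at a10 ⊢
        apply (mul_eq_zero.mp (_ : A 1 0 * (Y 0 0 - Y 1 1) = 0)).resolve_right h3 |>.trans
        · ring
        · linear_combination a10
      · field_simp
    · refine ⟨A 1 0 / Y 1 0, ?_, ?_, ?_⟩
      · field_simp
        linear_combination a00
      · field_simp
      · field_simp
        linear_combination -a10
  · refine ⟨A 0 1 / Y 0 1, ?_, ?_, ?_⟩
    · field_simp
    · field_simp
      linear_combination -a00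
    · field_simp
      linear_combination a01

/-- matrices commuting with a matrix which is not scalar commute -/
theorem comm_of_comm {K : Type*} [Field K] {Y A B : Matrix (Fin 2) (Fin 2) K}
    (hY : ¬ (Y 0 1 = 0 ∧ Y 1 0 = 0 ∧ Y 0 0 = Y 1 1)) (hA : A * Y = Y * A) (hB : B * Y = Y * B) :
    A * B = B * A := by
  obtain ⟨t, a1, a2, a3⟩ := exists_t hY hA
  obtain ⟨s, b1, b2, b3⟩ := exists_t hY hB
  have a4 : A 0 0 = A 1 1 + t * (Y 0 0 - Y 1 1) := by linear_combination a3
  have b4 : B 0 0 = B 1 1 + s * (Y 0 0 - Y 1 1) := by linear_combination b3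
  ext i j
  simp only [Matrix.mul_apply, Fin.sum_univ_two]
  fin_cases i <;> fin_cases j <;> simp only [Fin.zero_eta, Fin.mk_one] <;>
    simp only [a1, a2, b1, b2, a4, b4] <;> ring

include hfix hodd in
/-- **The structure of the subgroup.** -/
theorem structure_of (hp2 : p ≠ 2) :
    IsCyclic S ∧ (Nat.card S ∣ p - 1 ∨ Nat.card S ∣ p + 1) := by
  classical
  have hp : p.Prime := Fact.out
  by_cases hS : ∃ M ∈ S, M ≠ 1
  swap
  · push Not at hS
    have hsub : Subsingleton S := ⟨fun a b => Subtype.ext ((hS a a.2).trans (hS b b.2).symm)⟩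
    refine ⟨inferInstance, Or.inl ?_⟩
    rw [Nat.card_of_subsingleton (1 : S)]
    exact one_dvd _
  obtain ⟨Y, hYc, hY⟩ := exists_comm S hfix hodd hp2 hS
  let K := AlgebraicClosure (ZMod p)
  let ι : ZMod p →+* K := algebraMap (ZMod p) K
  have : CharP K p := charP_of_injective_algebraMap (algebraMap (ZMod p) K).injective p
  have h2K : (2 : K) ≠ 0 := by
    have h1 := two_ne hp2
    intro h
    apply h1
    apply ι.injective
    rw [map_ofNat, map_zero]
    exact h
  -- an eigenvalue of `Y`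
  obtain ⟨s, hs⟩ := IsAlgClosed.exists_pow_nat_eq
    (ι ((Y 0 0 - Y 1 1) ^ 2 + 4 * Y 0 1 * Y 1 0)) (n := 2) (by norm_num)
  set lam : K := (ι (Y 0 0 + Y 1 1) + s) / 2 with hlam
  have hlam2 : lam * 2 = ι (Y 0 0 + Y 1 1) + s := by rw [hlam, div_mul_cancel₀ _ h2K]
  have hroot : (ι (Y 0 0) - lam) * (ι (Y 1 1) - lam) = ι (Y 0 1) * ι (Y 1 0) := by
    have h4 : (4 : K) ≠ 0 := by
      have : (4 : K) = 2 * 2 := by norm_num
      rw [this]; exact mul_ne_zero h2K h2K
    apply mul_left_cancel₀ h4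
    have hs' : s ^ 2 = (ι (Y 0 0) - ι (Y 1 1)) ^ 2 + 4 * ι (Y 0 1) * ι (Y 1 0) := by
      rw [hs]
      simp only [map_add, map_mul, map_pow, map_sub, map_ofNat]
    rw [map_add] at hlam2
    have hss : s = lam * 2 - ι (Y 0 0) - ι (Y 1 1) := by linear_combination -hlam2
    rw [hss] at hs'
    linear_combination hs'
  -- an eigenvector
  obtain ⟨v1, v2, hv, e1, e2⟩ : ∃ v1 v2 : K, ¬ (v1 = 0 ∧ v2 = 0) ∧
      ι (Y 0 0) * v1 + ι (Y 0 1) * v2 = lam * v1 ∧
      ι (Y 1 0) * v1 + ι (Y 1 1) * v2 = lam * v2 := by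
    by_cases h1 : ι (Y 0 1) = 0 ∧ lam - ι (Y 0 0) = 0
    · by_cases h2 : lam - ι (Y 1 1) = 0 ∧ ι (Y 1 0) = 0
      · refine ⟨1, 0, fun h => one_ne_zero h.1, ?_, ?_⟩
        · linear_combination -h1.2
        · rw [h2.2]; ring
      · refine ⟨lam - ι (Y 1 1), ι (Y 1 0), h2, ?_, ?_⟩
        · linear_combination -hroot
        · ring
    · refine ⟨ι (Y 0 1), lam - ι (Y 0 0), h1, ?_, ?_⟩
      · ring
      · linear_combination -hroot
  -- the eigenvalues of the elements of the subgroup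
  have hmu : ∀ g : S, ∃ m : K, ι ((g : SL p).1 0 0) * v1 + ι ((g : SL p).1 0 1) * v2 = m * v1 ∧
      ι ((g : SL p).1 1 0) * v1 + ι ((g : SL p).1 1 1) * v2 = m * v2 := by
    intro g
    obtain ⟨t, a1, a2, a3⟩ := exists_t hY (hYc _ g.2)
    have a3' : (g : SL p).1 0 0 = t * (Y 0 0 - Y 1 1) + (g : SL p).1 1 1 := by
      linear_combination a3
    refine ⟨ι t * lam + ι ((g : SL p).1 1 1) - ι t * ι (Y 1 1), ?_, ?_⟩
    · rw [a1, a3']
      simp only [map_add, map_mul, map_sub]
      linear_combination ι t * e1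
    · rw [a2]
      simp only [map_mul]
      linear_combination ι t * e2
  choose mu hmu1 hmu2 using hmu
  have huniq : ∀ m m' : K, m * v1 = m' * v1 → m * v2 = m' * v2 → m = m' := by
    intro m m' h1 h2
    by_cases hv1 : v1 = 0
    · have hv2 : v2 ≠ 0 := fun h => hv ⟨hv1, h⟩
      exact mul_right_cancel₀ hv2 h2
    · exact mul_right_cancel₀ hv1 h1
  have hone : mu 1 = 1 := by
    apply huniq
    · rw [← hmu1]; simp
    · rw [← hmu2]; simp
  have hmul : ∀ g h, mu (g * h) = mu g * mu h := by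
    intro g h
    apply huniq
    · rw [← hmu1]
      simp only [Subgroup.coe_mul, Matrix.SpecialLinearGroup.coe_mul, Matrix.mul_apply,
        Fin.sum_univ_two, map_add, map_mul]
      linear_combination (ι ((g : SL p).1 0 0)) * hmu1 h + (ι ((g : SL p).1 0 1)) * hmu2 h
        + mu h * hmu1 g
    · rw [← hmu2]
      simp only [Subgroup.coe_mul, Matrix.SpecialLinearGroup.coe_mul, Matrix.mul_apply,
        Fin.sum_univ_two, map_add, map_mul]
      linear_combination (ι ((g : SL p).1 1 0)) * hmu1 h + (ι ((g : SL p).1 1 1)) * hmu2 h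
        + mu h * hmu2 g
  let f : S →* K := { toFun := mu, map_one' := hone, map_mul' := hmul }
  have hdetK : ∀ g : S, ι ((g : SL p).1 0 0) * ι ((g : SL p).1 1 1)
      - ι ((g : SL p).1 0 1) * ι ((g : SL p).1 1 0) = 1 := by
    intro g
    have := (g : SL p).2
    rw [Matrix.det_fin_two] at this
    rw [← map_mul, ← map_mul, ← map_sub, this, map_one]
  have hchar : ∀ g : S, mu g ^ 2 - ι ((g : SL p).1.trace) * mu g + 1 = 0 := by
    intro g
    have h1 := hmu1 g
    have h2 := hmu2 g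
    have h3 := hdetK g
    rw [Matrix.trace_fin_two, map_add]
    have k1 : (mu g ^ 2 - (ι ((g : SL p).1 0 0) + ι ((g : SL p).1 1 1)) * mu g + 1) * v1 = 0 := by
      linear_combination (-mu g + ι ((g : SL p).1 1 1)) * h1 - ι ((g : SL p).1 0 1) * h2
        - v1 * h3
    have k2 : (mu g ^ 2 - (ι ((g : SL p).1 0 0) + ι ((g : SL p).1 1 1)) * mu g + 1) * v2 = 0 := by
      linear_combination (-mu g + ι ((g : SL p).1 0 0)) * h2 - ι ((g : SL p).1 1 0) * h1
        - v2 * h3
    by_contra hne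
    exact hv ⟨(mul_eq_zero.mp k1).resolve_left hne, (mul_eq_zero.mp k2).resolve_left hne⟩
  have hinj : Function.Injective f := by
    rw [injective_iff_map_eq_one]
    intro g hg
    have h1 := hchar g
    have h2 : mu g = 1 := hg
    rw [h2] at h1
    have h3 : ι ((g : SL p).1.trace) = ι 2 := by
      rw [map_ofNat]
      linear_combination -h1
    obtain ⟨v, hv0, hv⟩ := exists_fixed (ι.injective h3)
    exact Subtype.ext (hfix _ g.2 v hv0 hv)
  have hcyc : IsCyclic S := isCyclic_of_injective_ringHom f hinj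
  refine ⟨hcyc, ?_⟩
  obtain ⟨g, hg⟩ := hcyc.exists_generator
  have hcard : orderOf g = Nat.card S := orderOf_eq_card_of_forall_mem_zpowers hg
  have hord : orderOf (f g) = Nat.card S := by rw [orderOf_injective f hinj, hcard]
  have hm : mu g ^ 2 - ι ((g : SL p).1.trace) * mu g + 1 = 0 := hchar g
  have hm0 : mu g ≠ 0 := by
    intro h0
    rw [h0] at hm
    simp at hm
  have hfrob : (mu g ^ p) ^ 2 - ι ((g : SL p).1.trace) * mu g ^ p + 1 = 0 := by
    have h1 : (mu g ^ 2 - ι ((g : SL p).1.trace) * mu g + 1) ^ p = 0 := by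
      rw [hm, zero_pow hp.ne_zero]
    rw [add_pow_char, sub_pow_char, mul_pow, one_pow, ← map_pow, ZMod.pow_card] at h1
    linear_combination h1
  have hfac : (mu g ^ p - mu g) * (mu g ^ p * mu g - 1) = 0 := by
    linear_combination (mu g) * hfrob - (mu g ^ p) * hm
  rw [← hord]
  rcases mul_eq_zero.mp hfac with h1 | h1
  · left
    apply orderOf_dvd_of_pow_eq_one
    show mu g ^ (p - 1) = 1
    apply mul_right_cancel₀ hm0
    rw [← pow_succ, Nat.sub_add_cancel hp.one_le, one_mul]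
    exact sub_eq_zero.mp h1
  · right
    apply orderOf_dvd_of_pow_eq_one
    show mu g ^ (p + 1) = 1
    rw [pow_succ]
    exact sub_eq_zero.mp h1

/-- the stabiliser of a triple product function -/
def stab (t : ZMod p × ZMod p → ZMod p × ZMod p → ℂ) : Subgroup (SL p) where
  carrier := {M | ∀ u v, t (act M u) (act M v) = t u v}
  one_mem' := fun u v => by rw [act_one, act_one]
  mul_mem' := fun {M N} hM hN u v => by rw [act_mul, act_mul, hM, hN]
  inv_mem' := fun {M} hM u v => by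
    rw [← hM, ← act_mul, ← act_mul, mul_inv_cancel, act_one, act_one]

theorem mem_stab {t : ZMod p × ZMod p → ZMod p × ZMod p → ℂ} {M : SL p} :
    M ∈ stab t ↔ ∀ u v, t (act M u) (act M v) = t u v := Iff.rfl

/-- a symmetry fixing a nonzero vector is trivial -/
theorem stab_fix (hp5 : 5 ≤ p) (hp2 : p ≠ 2) {t : ZMod p × ZMod p → ZMod p × ZMod p → ℂ}
    (ht : t ∈ X p) (M : SL p) (hM : M ∈ stab t) (v : ZMod p × ZMod p) (hv : v ≠ 0)
    (h : act M v = v) : M = 1 := by
  -- move the vector to `(0, 1)`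
  obtain ⟨A, hA⟩ : ∃ A : SL p, act A (0, 1) = v := by
    by_cases h1 : v.1 = 0
    · have h2 : v.2 ≠ 0 := fun h2 => hv (Prod.ext h1 h2)
      refine ⟨⟨!![(v.2)⁻¹, 0; 0, v.2], ?_⟩, ?_⟩
      · rw [Matrix.det_fin_two_of]
        field_simp
        ring
      · ext
        · show (v.2)⁻¹ * 0 + 0 * 1 = v.1
          rw [h1]; ring
        · show (0 : ZMod p) * 0 + v.2 * 1 = v.2
          ring
    · refine ⟨⟨!![0, v.1; -(v.1)⁻¹, v.2], ?_⟩, ?_⟩
      · rw [Matrix.det_fin_two_of]
        field_simp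
        ring
      · ext
        · show (0 : ZMod p) * 0 + v.1 * 1 = v.1
          ring
        · show -(v.1)⁻¹ * 0 + v.2 * 1 = v.2
          ring
  obtain ⟨N, hN⟩ : ∃ N : SL p, N = A⁻¹ * M * A := ⟨_, rfl⟩
  have hNv : act N (0, 1) = (0, 1) := by
    rw [hN, act_mul, act_mul, hA, h, ← hA, ← act_mul, inv_mul_cancel, act_one]
  obtain ⟨ψ, hψ, hT⟩ := act_mem hp2 A ht
  have hNT : ∀ u v, T (F ψ) (act N u) (act N v) = T (F ψ) u v := by
    intro u v
    rw [← hT]
    have h1 : ∀ w, act A (act N w) = act M (act A w) := by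
      intro w
      rw [hN, ← act_mul, ← act_mul]
      congr 1
      group
    simp only [h1]
    exact hM _ _
  have e1 : N.1 0 1 = 0 := by
    have := congrArg Prod.fst hNv
    simp only [act, mul_zero, mul_one, zero_add] at this
    exact this
  have e2 : N.1 1 1 = 1 := by
    have := congrArg Prod.snd hNv
    simp only [act, mul_zero, mul_one, zero_add] at this
    exact this
  have e3 : N.1 0 0 = 1 := by
    have := N.2
    rw [Matrix.det_fin_two, e1, e2] at this
    linear_combination this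
  have hact : ∀ w, act N w = (w.1, N.1 1 0 * w.1 + w.2) := by
    intro w
    ext
    · show N.1 0 0 * w.1 + N.1 0 1 * w.2 = w.1
      rw [e1, e3]; ring
    · show N.1 1 0 * w.1 + N.1 1 1 * w.2 = N.1 1 0 * w.1 + w.2
      rw [e2]; ring
  have hN1 : N = 1 := by
    by_cases h0 : N.1 1 0 = 0
    · rw [← act_eq_iff]
      intro w
      rw [hact, h0, act_one]
      ext <;> simp
    · exfalso
      apply no_chirp hp2 hp5 hψ h0
      intro u v
      have := hNT u v
      rwa [hact, hact] at this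
  have h1 : M = A * N * A⁻¹ := by
    rw [hN]; group
  rw [h1, hN1]
  group

/-- the order of the stabiliser is odd -/
theorem stab_odd (hp5 : 5 ≤ p) (hp2 : p ≠ 2) {t : ZMod p × ZMod p → ZMod p × ZMod p → ℂ}
    (ht : t ∈ X p) : Odd (Nat.card (stab t)) := by
  rw [← Nat.not_even_iff_odd, even_iff_two_dvd]
  intro h
  obtain ⟨M, hM⟩ := exists_prime_orderOf_dvd_card' 2 h
  have h1 : (M : SL p) ^ (2 ^ 1) = 1 := by
    have := pow_orderOf_eq_one M
    rw [hM] at this
    exact congrArg Subtype.val this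
  have h2 := free_two hp5 hp2 ht h1 M.2
  have h3 : M = 1 := Subtype.ext h2
  rw [h3, orderOf_one] at hM
  omega

/-- **The stabiliser of a triple product function.** -/
theorem stab_structure (hp5 : 5 ≤ p) (hp2 : p ≠ 2)
    {t : ZMod p × ZMod p → ZMod p × ZMod p → ℂ} (ht : t ∈ X p) :
    IsCyclic (stab t) ∧ Odd (Nat.card (stab t)) ∧
      (Nat.card (stab t) ∣ p - 1 ∨ Nat.card (stab t) ∣ p + 1) ∧
      ∀ M ∈ stab t, ∀ v, v ≠ 0 → act M v = v → M = 1 := by
  have h1 := stab_fix hp5 hp2 ht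
  have h2 := stab_odd hp5 hp2 ht
  obtain ⟨h3, h4⟩ := structure_of (stab t) h1 h2 hp2
  exact ⟨h3, h2, h4, h1⟩

end Pool.Agent.H138.Cnt
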